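import Mathlib

/-!
# MP_b9166b_al: the definitions of the statement of CoprimeKernel
-/

set_option autoImplicit false

namespace Pool.Agent.Lib.MP_b9166b_al.Ks2

open scoped commutatorElement

/-- `L` is isomorphic to `SL_n(F)` for some `n` and some finite field `F`. -/
def IsSL (L : Type) [Group L] : Prop :=
  ∃ (F : Type) (_ : Field F) (n : ℕ),
    Finite F ∧ Nonempty (Matrix.SpecialLinearGroup (Fin n) F ≃* L)

/-- `L` is isomorphic to `Alt(n)` for some `n`. -/
def IsAlt (L : Type) [Group L] : Prop :=
  ∃ n : ℕ, Nonempty (alternatingGroup (Fin n) ≃* L)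

/-- `Q = M C_Q(M)`, and `M` is the quotient of a group with the property `P` by a central subgroup. -/
def Factor (P : (L : Type) → [Group L] → Prop) {Q : Type} [Group Q] (M : Subgroup Q) : Prop :=
  M ⊔ Subgroup.centralizer (M : Set Q) = ⊤ ∧
    ∃ (L : Type) (_ : Group L) (σ : L →* Q), P L ∧ σ.ker ≤ Subgroup.center L ∧ σ.range = M

/-- Either the order of `T` is prime to the order of `x`, or every element of every perfect subgroup `D` of
`M ≤ H / T` which centralizes `x T` is the image of an element of `H` commuting with `x`. -/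
def Lifts {H : Type} [Group H] (T : Subgroup H) [T.Normal] (M : Subgroup (H ⧸ T)) (x : H) : Prop :=
  (Nat.card T).Coprime (orderOf x) ∨
    ∀ D ≤ M, ⁅D, D⁆ = D → (∀ d ∈ D, Commute d (x : H ⧸ T)) →
      ∀ d ∈ D, ∃ h : H, Commute h x ∧ (h : H ⧸ T) = d

/-- `H` is a finite subgroup containing `x` and `z`; it has a normal subgroup `T`, and `H / T` has a subgroup
`M` with the property `Factor P` which does not centralize `z T`, and whose perfect subgroups centralizing
`x T` are covered by `C_H(x)` (for example because the order of `T` is prime to the order of `x`). -/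
def Cov (P : (L : Type) → [Group L] → Prop) {G : Type} [Group G] (x z : G) (H : Subgroup G) : Prop :=
  Finite H ∧ ∃ (hx : x ∈ H) (hz : z ∈ H) (T : Subgroup H) (_ : T.Normal) (M : Subgroup (H ⧸ T)),
    Factor P M ∧ Lifts T M ⟨x, hx⟩ ∧
      ((⟨z, hz⟩ : H) : H ⧸ T) ∉ Subgroup.centralizer (M : Set (H ⧸ T))

end Pool.Agent.Lib.MP_b9166b_al.Ks2
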