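import Pool.Agent.Lib.MP_b9166b_al.Ks.Lift
import Pool.Agent.Lib.MP_b9166b_al.Kegel
import Pool.Agent.Lib.MP_b9166b_al.Ks2.St

/-!
# MP_b9166b_al: basic lemmas on the covers of the theorem
-/

set_option autoImplicit false

namespace Pool.Agent.Lib.MP_b9166b_al.Ks2

open scoped commutatorElement

/-- The product of M and its centralizer. -/
theorem Factor.dec {P : (L : Type) → [Group L] → Prop} {Q : Type} [Group Q] {M : Subgroup Q}
    (h : Factor P M) (q : Q) : ∃ m ∈ M, ∃ c ∈ Subgroup.centralizer (M : Set Q), q = m * c := by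
  have hcomm : ∀ c ∈ Subgroup.centralizer (M : Set Q), ∀ m ∈ M, c * m = m * c := by
    intro c hc m hm
    exact ((Subgroup.mem_centralizer_iff.1 hc) m hm).symm
  let K : Subgroup Q :=
    { carrier := {q | ∃ m ∈ M, ∃ c ∈ Subgroup.centralizer (M : Set Q), q = m * c}
      one_mem' := ⟨1, M.one_mem, 1, Subgroup.one_mem _, (mul_one 1).symm⟩
      mul_mem' := by
        rintro _ _ ⟨m, hm, c, hc, rfl⟩ ⟨m', hm', c', hc', rfl⟩
        refine ⟨m * m', M.mul_mem hm hm', c * c', Subgroup.mul_mem _ hc hc', ?_⟩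
        rw [mul_assoc, ← mul_assoc c, hcomm c hc m' hm']
        simp only [mul_assoc]
      inv_mem' := by
        rintro _ ⟨m, hm, c, hc, rfl⟩
        refine ⟨m⁻¹, M.inv_mem hm, c⁻¹, Subgroup.inv_mem _ hc, ?_⟩
        rw [mul_inv_rev]
        exact hcomm c⁻¹ (Subgroup.inv_mem _ hc) m⁻¹ (M.inv_mem hm) }
  have h1 : M ⊔ Subgroup.centralizer (M : Set Q) ≤ K := by
    refine sup_le ?_ ?_
    · intro m hm
      exact ⟨m, hm, 1, Subgroup.one_mem _, (mul_one m).symm⟩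
    · intro c hc
      exact ⟨1, M.one_mem, c, hc, (one_mul c).symm⟩
  rw [h.1] at h1
  exact h1 (Subgroup.mem_top q)

/-- The centralizer of M is normal. -/
theorem Factor.conj_mem {P : (L : Type) → [Group L] → Prop} {Q : Type} [Group Q] {M : Subgroup Q}
    (h : Factor P M) {n : Q} (hn : n ∈ Subgroup.centralizer (M : Set Q)) (q : Q) :
    q * n * q⁻¹ ∈ Subgroup.centralizer (M : Set Q) := by
  obtain ⟨m, hm, c, hc, rfl⟩ := h.dec q
  have h1 : c * n * c⁻¹ ∈ Subgroup.centralizer (M : Set Q) :=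
    Subgroup.mul_mem _ (Subgroup.mul_mem _ hc hn) (Subgroup.inv_mem _ hc)
  have h2 : m * (c * n * c⁻¹) * m⁻¹ = c * n * c⁻¹ := by
    rw [(Subgroup.mem_centralizer_iff.1 h1) m hm, mul_inv_cancel_right]
  have h3 : m * c * n * (m * c)⁻¹ = m * (c * n * c⁻¹) * m⁻¹ := by
    rw [mul_inv_rev]
    simp only [mul_assoc]
  rw [h3, h2]
  exact h1

/-- The second form of the lifting property holds in both cases. -/
theorem Lifts.perfect {H : Type} [Group H] [Finite H] {T : Subgroup H} [T.Normal]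
    {M : Subgroup (H ⧸ T)} {x : H} (h : Lifts T M x) :
    ∀ D ≤ M, ⁅D, D⁆ = D → (∀ d ∈ D, Commute d (x : H ⧸ T)) →
      ∀ d ∈ D, ∃ h : H, Commute h x ∧ (h : H ⧸ T) = d := by
  rcases h with h | h
  · intro D _ _ hD d hd
    obtain ⟨g, rfl⟩ := QuotientGroup.mk_surjective d
    obtain ⟨t, ht, hc⟩ := Ks.exists_commute_mul T h
      (Ks.lift_mem_of_comm T (x := x) (h := g) (hD _ hd))
    exact ⟨g * t, hc, QuotientGroup.mk_mul_of_mem g ht⟩
  · exact h

/-- Separation of a finite set S: the cover of a large set S' is used. -/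
theorem exists_sep {G : Type} [Group G] (hs : IsSimpleGroup G) (z : G)
    (S : Finset G) : ∃ S' : Finset G, S ⊆ S' ∧ ∀ (P : (L : Type) → [Group L] → Prop)
      (H : Subgroup G) (hzH : z ∈ H) (T : Subgroup H) [T.Normal] (M : Subgroup (H ⧸ T)),
      (∀ s ∈ S', s ∈ H) → Factor P M →
      ((⟨z, hzH⟩ : H) : H ⧸ T) ∉ Subgroup.centralizer (M : Set (H ⧸ T)) →
      ∀ s : H, (s : G) ∈ S → s ≠ 1 → (s : H ⧸ T) ∉ Subgroup.centralizer (M : Set (H ⧸ T)) := by
  classical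
  have hcon : ∀ f : G, ∃ T : Finset G, f ≠ 1 → ∀ H N : Subgroup G, (∀ t ∈ T, t ∈ H) →
      (∀ n ∈ N, ∀ h ∈ H, h * n * h⁻¹ ∈ N) → f ∈ N → z ∈ N := by
    intro f
    by_cases hf : f = 1
    · exact ⟨∅, fun h1 => absurd hf h1⟩
    · obtain ⟨T, hT⟩ := exists_conjugators hs f z hf
      exact ⟨T, fun _ => hT⟩
  choose W hW using hcon
  refine ⟨S ∪ S.biUnion W, Finset.subset_union_left, ?_⟩
  intro P H hzH T _ M hH hM hzM s hsS hs1 hsM
  apply hzM
  let N : Subgroup G :=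
    ((Subgroup.centralizer (M : Set (H ⧸ T))).comap (QuotientGroup.mk' T)).map H.subtype
  have hN : z ∈ N := by
    refine hW (s : G) (fun h => hs1 (Subtype.ext h)) H N ?_ ?_ ?_
    · intro t ht
      exact hH t (Finset.mem_union_right _ (Finset.mem_biUnion.2 ⟨s, hsS, ht⟩))
    · rintro _ ⟨n, hn, rfl⟩ h hh
      refine ⟨⟨h, hh⟩ * n * ⟨h, hh⟩⁻¹, ?_, rfl⟩
      have hn' : ((n : H) : H ⧸ T) ∈ Subgroup.centralizer (M : Set (H ⧸ T)) := hn
      exact hM.conj_mem hn' ((⟨h, hh⟩ : H) : H ⧸ T)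
    · exact ⟨s, hsM, rfl⟩
  obtain ⟨n, hn, hnz⟩ := hN
  have h1 : n = ⟨z, hzH⟩ := Subtype.ext hnz
  rw [← h1]
  exact hn

end Pool.Agent.Lib.MP_b9166b_al.Ks2
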