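import Pool.Agent.Lib.MP_b9166b_al.Ks.CovAlt
import Pool.Agent.Lib.MP_b9166b_al.Ks2.Cov

/-!
# From Cov with alternating factors to ACov
-/

set_option autoImplicit false

namespace Pool.Agent.Lib.MP_b9166b_al.Ks2

open Ks
open scoped commutatorElement

variable {G : Type} [Group G] {x z : G}

theorem exists_acov (hs : IsSimpleGroup G)
    (h : ∀ S : Finset G, ∃ H : Subgroup G, (∀ s ∈ S, s ∈ H) ∧ Cov (fun L _ => IsAlt L) x z H)
    (S : Finset G) : Nonempty (ACov x S) := by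
  classical
  obtain ⟨S', hSS', hsep⟩ := exists_sep hs z S
  obtain ⟨H, hSH', hfin, hx, hzH, T, hT, M, hM, hL, hzM⟩ := h S'
  have hSH : ∀ s ∈ S, s ∈ H := fun s hs => hSH' s (hSS' hs)
  replace hsep := hsep _ H hzH T M hSH' hM hzM
  have hlift := hL.perfect
  obtain ⟨L, _, σ', ⟨n, ⟨e⟩⟩, hker', hran'⟩ := hM.2
  -- the homomorphism from the alternating group
  let σ : alternatingGroup (Fin n) →* H ⧸ T := σ'.comp e.toMonoidHom
  have hσ : ∀ b, σ b = σ' (e b) := fun b => rfl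
  have hran : ∀ q, q ∈ M ↔ ∃ b, σ b = q := by
    intro q
    rw [← hran', MonoidHom.mem_range]
    constructor
    · rintro ⟨l, rfl⟩
      exact ⟨e.symm l, by rw [hσ, e.apply_symm_apply]⟩
    · rintro ⟨b, rfl⟩
      exact ⟨e b, rfl⟩
  have hker : ∀ b, σ b = 1 → ∀ b', Commute b b' := by
    intro b hb b'
    have h1 : e b ∈ Subgroup.center L := hker' hb
    rw [Subgroup.mem_center_iff] at h1
    apply e.injective
    rw [map_mul, map_mul]
    exact (h1 (e b')).symm
  have hcen : ∀ c : H ⧸ T, c ∈ Subgroup.centralizer (M : Set (H ⧸ T)) ↔ ∀ b, Commute c (σ b) := by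
    intro c
    rw [Subgroup.mem_centralizer_iff]
    constructor
    · intro h1 b
      exact (h1 (σ b) ((hran _).2 ⟨b, rfl⟩)).symm
    · intro h1 q hq
      obtain ⟨b, rfl⟩ := (hran q).1 hq
      exact (h1 b).eq.symm
  have hdec : ∀ q : H ⧸ T, ∃ b c, (∀ b', Commute c (σ b')) ∧ q = σ b * c := by
    intro q
    obtain ⟨m, hm, c, hc, rfl⟩ := hM.dec q
    obtain ⟨b, rfl⟩ := (hran m).1 hm
    exact ⟨b, c, (hcen c).1 hc, rfl⟩
  have hn : 4 ≤ n := by
    by_contra hn
    apply hzM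
    rw [hcen]
    intro b
    obtain ⟨b', c, hc, he⟩ := hdec (((⟨z, hzH⟩ : H) : H ⧸ T))
    rw [he]
    have hab := alternatingGroup.isMulCommutative_of_card_le_three (α := Fin n)
      (by rw [Nat.card_eq_fintype_card, Fintype.card_fin]; omega)
    refine Commute.mul_left ?_ (hc b)
    have h1 : Commute b' b := hab.is_comm.comm b' b
    exact h1.map σ
  have hinj : ∀ b, σ b = 1 → b = 1 := fun b hb => alt_center hn (hker b hb)
  choose A c hc hA using hdec
  have hAu : ∀ (q : H ⧸ T) (b : alternatingGroup (Fin n)) (d : H ⧸ T), (∀ e, Commute d (σ e)) →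
      q = σ b * d → A q = b := fun q b d hd hq =>
    cov_unique hn hinj (hc q) hd ((hA q).symm.trans hq)
  have hAm : ∀ q q' : H ⧸ T, A (q * q') = A q * A q' := by
    intro q q'
    refine hAu _ _ (c q * c q') (fun e => (hc q e).mul_left (hc q' e)) ?_
    rw [map_mul]
    conv_lhs => rw [hA q, hA q']
    rw [mul_assoc, mul_assoc, ← mul_assoc (c q), (hc q (A q')).eq, mul_assoc]
  let a : G → Equiv.Perm (Fin n) := fun g =>
    if hg : g ∈ H then (A (QuotientGroup.mk ⟨g, hg⟩ : H ⧸ T) : Equiv.Perm (Fin n)) else 1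
  have ha : ∀ g (hg : g ∈ H), a g = A (QuotientGroup.mk ⟨g, hg⟩ : H ⧸ T) := fun g hg => dif_pos hg
  refine ⟨⟨H, hfin, hx, hSH, n, a, ?_, ?_, ?_⟩⟩
  · intro g hg h hh
    rw [ha g hg, ha h hh, ha (g * h) (H.mul_mem hg hh)]
    have h1 := hAm (QuotientGroup.mk ⟨g, hg⟩) (QuotientGroup.mk ⟨h, hh⟩)
    exact congrArg Subtype.val h1
  · intro s hs hs1 h0
    rw [ha s (hSH s hs)] at h0
    have h1 : A (QuotientGroup.mk ⟨s, hSH s hs⟩ : H ⧸ T) = 1 := Subtype.ext h0
    refine hsep ⟨s, hSH s hs⟩ hs (fun h0 => hs1 (congrArg Subtype.val h0)) ?_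
    rw [hcen]
    have h2 := hA (QuotientGroup.mk ⟨s, hSH s hs⟩ : H ⧸ T)
    rw [h1, map_one, one_mul] at h2
    rw [h2]
    exact hc _
  · intro D hD hDx u hu
    have hDalt : D ≤ alternatingGroup (Fin n) := by
      rw [← hD]
      exact (Subgroup.commutator_mono le_top le_top).trans (alternatingGroup.commutator_perm_le)
    let D1 : Subgroup (alternatingGroup (Fin n)) := D.subgroupOf (alternatingGroup (Fin n))
    have hD1 : D1.map (alternatingGroup (Fin n)).subtype = D := by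
      rw [Subgroup.subgroupOf_map_subtype, inf_eq_left]
      exact hDalt
    have hD1p : ⁅D1, D1⁆ = D1 := by
      apply Subgroup.map_injective (Subgroup.subtype_injective (alternatingGroup (Fin n)))
      rw [Subgroup.map_commutator, hD1, hD]
    let D2 : Subgroup (H ⧸ T) := D1.map σ
    have hD2 : D2 ≤ M := by
      rintro _ ⟨b, _, rfl⟩
      exact (hran _).2 ⟨b, rfl⟩
    have hD2p : ⁅D2, D2⁆ = D2 := by
      change ⁅D1.map σ, D1.map σ⁆ = D1.map σ
      rw [← Subgroup.map_commutator, hD1p]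
    have hD2x : ∀ d ∈ D2, Commute d (((⟨x, hx⟩ : H) : H ⧸ T)) := by
      rintro _ ⟨b, hb, rfl⟩
      have h1 : Commute b (A (QuotientGroup.mk ⟨x, hx⟩ : H ⧸ T)) := by
        have h2 := hDx b.1 hb
        rw [ha x hx] at h2
        exact Subtype.ext h2.eq
      rw [hA (QuotientGroup.mk ⟨x, hx⟩ : H ⧸ T)]
      exact (h1.map σ).mul_right (hc _ b).symm
    obtain ⟨h0, hcomm, hh0⟩ := hlift D2 hD2 hD2p hD2x (σ ⟨u, hDalt hu⟩) ⟨⟨u, hDalt hu⟩, hu, rfl⟩
    refine ⟨(h0 : G), h0.2, congrArg Subtype.val hcomm.eq, ?_⟩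
    rw [ha _ h0.2]
    have h3 : (QuotientGroup.mk h0 : H ⧸ T) = σ ⟨u, hDalt hu⟩ * 1 := by
      rw [mul_one]
      exact hh0
    have h4 := hAu _ ⟨u, hDalt hu⟩ 1 (fun e => Commute.one_left _) h3
    exact congrArg Subtype.val h4

end Pool.Agent.Lib.MP_b9166b_al.Ks2
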