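import Mathlib

/-!
# Perfect subgroups cover perfect images
-/

set_option autoImplicit false

namespace Pool.Agent.Lib.MP_b9166b_al.Ks2

open scoped commutatorElement

/-- The derived series of a finite group ends in a perfect subgroup. -/
theorem exists_derivedSeries_perfect (Γ : Type) [Group Γ] [Finite Γ] :
    ∃ n : ℕ, ⁅derivedSeries Γ n, derivedSeries Γ n⁆ = derivedSeries Γ n := by
  classical
  have hex : ∃ k : ℕ, ∃ n : ℕ, Nat.card (derivedSeries Γ n) = k := ⟨_, 0, rfl⟩
  obtain ⟨n, hn⟩ := Nat.find_spec hex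
  refine ⟨n, ?_⟩
  rw [← derivedSeries_succ]
  have h1 : derivedSeries Γ (n + 1) ≤ derivedSeries Γ n := derivedSeries_antitone Γ (Nat.le_succ n)
  refine Subgroup.eq_of_le_of_card_ge h1 ?_
  rw [hn]
  exact Nat.find_min' hex ⟨n + 1, rfl⟩

theorem derivedSeries_eq_top {A : Type} [Group A] (hA : commutator A = ⊤) (n : ℕ) :
    derivedSeries A n = ⊤ := by
  induction n with
  | zero => exact derivedSeries_zero A
  | succ n ih =>
    rw [derivedSeries_succ, ih]
    exact hA

/-- A relation between finite groups which is compatible with the group structures and covers the perfect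
group A: it is covered by a perfect subgroup. -/
theorem exists_perfect {A B : Type} [Group A] [Group B] [Finite A] [Finite B]
    (hA : commutator A = ⊤) (R : B → A → Prop) (h1 : R 1 1)
    (hm : ∀ b b' a a', R b a → R b' a' → R (b * b') (a * a'))
    (hi : ∀ b a, R b a → R b⁻¹ a⁻¹) (hs : ∀ a, ∃ b, R b a) :
    ∃ D : Subgroup B, ⁅D, D⁆ = D ∧ (∀ a, ∃ b ∈ D, R b a) ∧ ∀ b ∈ D, ∃ a, R b a := by
  let Γ : Subgroup (B × A) :=
    { carrier := {p | R p.1 p.2}
      one_mem' := h1
      mul_mem' := fun {p q} hp hq => hm _ _ _ _ hp hq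
      inv_mem' := fun {p} hp => hi _ _ hp }
  have hmem : ∀ p : B × A, p ∈ Γ ↔ R p.1 p.2 := fun p => Iff.rfl
  let f : Γ →* B := (MonoidHom.fst B A).comp Γ.subtype
  let g : Γ →* A := (MonoidHom.snd B A).comp Γ.subtype
  have hg : Function.Surjective g := by
    intro a
    obtain ⟨b, hb⟩ := hs a
    exact ⟨⟨(b, a), hb⟩, rfl⟩
  obtain ⟨n, hn⟩ := exists_derivedSeries_perfect Γ
  refine ⟨(derivedSeries Γ n).map f, ?_, ?_, ?_⟩
  · rw [← Subgroup.map_commutator, hn]
  · intro a
    have h2 := map_derivedSeries_eq hg n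
    rw [derivedSeries_eq_top hA] at h2
    have h3 : a ∈ (derivedSeries Γ n).map g := by
      rw [h2]
      exact Subgroup.mem_top a
    obtain ⟨p, hp, rfl⟩ := h3
    exact ⟨f p, ⟨p, hp, rfl⟩, p.2⟩
  · rintro b ⟨p, _, rfl⟩
    exact ⟨g p, p.2⟩

/-- Elements of perfect subgroups have determinant one. -/
theorem det_eq_one_of_perfect {F V : Type} [Field F] [AddCommGroup V] [Module F V]
    {D : Subgroup (V →ₗ[F] V)ˣ} (hD : ⁅D, D⁆ = D) {u : (V →ₗ[F] V)ˣ} (hu : u ∈ D) :
    LinearMap.det u.val = 1 := by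
  let f : (V →ₗ[F] V)ˣ →* Fˣ := Units.map LinearMap.det
  have h1 : D ≤ f.ker := by
    rw [← hD, Subgroup.commutator_le]
    intro g _ h _
    rw [MonoidHom.mem_ker, map_commutatorElement, commutatorElement_eq_one_iff_mul_comm]
    exact mul_comm _ _
  have h2 := h1 hu
  rw [MonoidHom.mem_ker] at h2
  exact congrArg Units.val h2

end Pool.Agent.Lib.MP_b9166b_al.Ks2
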