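import Pool.Agent.Lib.MP_b9166b_al.Ks2.Defs
import Pool.Agent.Lib.MP_b9166b_al.Ks2.Perfect
import Pool.Agent.Lib.MP_b9166b_al.Ks2.Cov
import Pool.Agent.Lib.MP_b9166b_al.Ks.CovLin

/-!
# From Cov with factors SL_n(F) to LCov
-/

set_option autoImplicit false

namespace Pool.Agent.Lib.MP_b9166b_al.Ks2

open Matrix Ks
open scoped commutatorElement

variable {G : Type} [Group G] {x z : G}

/-- The invertible endomorphism of `Fin n → F` given by a matrix of determinant one. -/
noncomputable def slU {n : ℕ} {F : Type} [Field F] (b : SpecialLinearGroup (Fin n) F) :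
    ((Fin n → F) →ₗ[F] (Fin n → F))ˣ where
  val := Matrix.toLin' (b : Matrix (Fin n) (Fin n) F)
  inv := Matrix.toLin' ((b⁻¹ : SpecialLinearGroup (Fin n) F) : Matrix (Fin n) (Fin n) F)
  val_inv := by
    rw [Module.End.mul_eq_comp, ← Matrix.toLin'_mul, ← Matrix.SpecialLinearGroup.coe_mul,
      mul_inv_cancel, Matrix.SpecialLinearGroup.coe_one, Matrix.toLin'_one]
    rfl
  inv_val := by
    rw [Module.End.mul_eq_comp, ← Matrix.toLin'_mul, ← Matrix.SpecialLinearGroup.coe_mul,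
      inv_mul_cancel, Matrix.SpecialLinearGroup.coe_one, Matrix.toLin'_one]
    rfl

theorem slU_val {n : ℕ} {F : Type} [Field F] (b : SpecialLinearGroup (Fin n) F) :
    (slU b).val = Matrix.toLin' (b : Matrix (Fin n) (Fin n) F) := rfl

/-- Two decompositions of the same element differ by a scalar. -/
theorem sl_decomp {Q : Type} [Group Q] {n : ℕ} {F : Type} [Field F]
    (σ : SpecialLinearGroup (Fin n) F →* Q) (hker : ∀ b, σ b = 1 → ∀ b', Commute b b')
    {b₁ b₂ : SpecialLinearGroup (Fin n) F} {c₁ c₂ : Q}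
    (h₁ : ∀ b', Commute c₁ (σ b')) (h₂ : ∀ b', Commute c₂ (σ b'))
    (he : σ b₁ * c₁ = σ b₂ * c₂) :
    ∃ e : F, e ≠ 0 ∧ (b₁ : Matrix (Fin n) (Fin n) F) = e • (b₂ : Matrix (Fin n) (Fin n) F) := by
  have h3 : σ (b₂⁻¹ * b₁) = c₂ * c₁⁻¹ := by
    rw [map_mul, map_inv, eq_mul_inv_iff_mul_eq, mul_assoc, he, inv_mul_cancel_left]
  have h4 : ∀ b' b'' : SpecialLinearGroup (Fin n) F, Commute ⁅b₂⁻¹ * b₁, b'⁆ b'' := by
    intro b' b''
    refine hker _ ?_ b''
    rw [map_commutatorElement, commutatorElement_eq_one_iff_commute, h3]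
    exact (h₂ b').mul_left (h₁ b').inv_left
  obtain ⟨e, he0, he1⟩ := sl_scalar_ne h4
  refine ⟨e, he0, ?_⟩
  have h5 : b₁ = b₂ * (b₂⁻¹ * b₁) := by group
  rw [h5, Matrix.SpecialLinearGroup.coe_mul, he1, mul_smul_comm, mul_one]

theorem slU_one {n : ℕ} {F : Type} [Field F] : slU (1 : SpecialLinearGroup (Fin n) F) = 1 := by
  apply Units.ext
  rw [slU_val, Matrix.SpecialLinearGroup.coe_one, Matrix.toLin'_one]
  rfl

theorem slU_mul {n : ℕ} {F : Type} [Field F] (b b' : SpecialLinearGroup (Fin n) F) :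
    slU (b * b') = slU b * slU b' := by
  apply Units.ext
  rw [slU_val, Matrix.SpecialLinearGroup.coe_mul, Matrix.toLin'_mul]
  rfl

/-- `slU` as a homomorphism. -/
noncomputable def slHom {n : ℕ} {F : Type} [Field F] :
    SpecialLinearGroup (Fin n) F →* ((Fin n → F) →ₗ[F] (Fin n → F))ˣ where
  toFun := slU
  map_one' := slU_one
  map_mul' := slU_mul

theorem slHom_injective {n : ℕ} {F : Type} [Field F] :
    Function.Injective (slHom : SpecialLinearGroup (Fin n) F →* _) := by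
  intro b b' h
  apply Subtype.ext
  apply Matrix.toLin'.injective
  exact congrArg Units.val h

theorem exists_slHom {n : ℕ} {F : Type} [Field F] {u : ((Fin n → F) →ₗ[F] (Fin n → F))ˣ}
    (hu : LinearMap.det u.val = 1) : ∃ U : SpecialLinearGroup (Fin n) F, slHom U = u := by
  refine ⟨⟨LinearMap.toMatrix' u.val, ?_⟩, ?_⟩
  · rw [← LinearMap.det_toLin', Matrix.toLin'_toMatrix']
    exact hu
  · apply Units.ext
    exact Matrix.toLin'_toMatrix' _

/-- V = Fin n → F, a_h = the matrix b of a decomposition h T = σ b * c (a_g = 1 outside H). -/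
theorem exists_lcov (hs : IsSimpleGroup G)
    (h : ∀ S : Finset G, ∃ H : Subgroup G, (∀ s ∈ S, s ∈ H) ∧ Cov (fun L _ => IsSL L) x z H)
    (S : Finset G) : Nonempty (LCov x S) := by
  classical
  obtain ⟨S', hSS', hsep⟩ := exists_sep hs z S
  obtain ⟨H, hSH', hfin, hx, hzH, T, hT, M, hM, hL, hzM⟩ := h S'
  have hS : ∀ s ∈ S, s ∈ H := fun s hs => hSH' s (hSS' hs)
  replace hsep := hsep _ H hzH T M hSH' hM hzM
  have hlift := hL.perfect
  obtain ⟨L, _, σ', ⟨F, fld, n, hF, ⟨e⟩⟩, hker', hran'⟩ := hM.2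
  let σ : SpecialLinearGroup (Fin n) F →* H ⧸ T := σ'.comp e.toMonoidHom
  have hσ : ∀ b, σ b = σ' (e b) := fun b => rfl
  have hran : ∀ q, q ∈ M ↔ ∃ b, σ b = q := by
    intro q
    rw [← hran', MonoidHom.mem_range]
    constructor
    · rintro ⟨l, rfl⟩
      exact ⟨e.symm l, by rw [hσ, e.apply_symm_apply]⟩
    · rintro ⟨b, rfl⟩
      exact ⟨e b, rfl⟩
  have hker : ∀ b, σ b = 1 → ∀ b', Commute b b' := by
    intro b hb b'
    have h1 : e b ∈ Subgroup.center L := hker' hb
    rw [Subgroup.mem_center_iff] at h1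
    apply e.injective
    rw [map_mul, map_mul]
    exact (h1 (e b')).symm
  have hcen : ∀ c : H ⧸ T, c ∈ Subgroup.centralizer (M : Set (H ⧸ T)) ↔ ∀ b, Commute c (σ b) := by
    intro c
    rw [Subgroup.mem_centralizer_iff]
    constructor
    · intro h1 b
      exact (h1 (σ b) ((hran _).2 ⟨b, rfl⟩)).symm
    · intro h1 q hq
      obtain ⟨b, rfl⟩ := (hran q).1 hq
      exact (h1 b).eq.symm
  have hdec : ∀ q : H ⧸ T, ∃ b c, (∀ b', Commute c (σ b')) ∧ q = σ b * c := by
    intro q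
    obtain ⟨m, hm, c, hc, rfl⟩ := hM.dec q
    obtain ⟨b, rfl⟩ := (hran m).1 hm
    exact ⟨b, c, (hcen c).1 hc, rfl⟩
  choose B C hC hBC using hdec
  let bb : G → SpecialLinearGroup (Fin n) F := fun g =>
    if hg : g ∈ H then B (QuotientGroup.mk ⟨g, hg⟩) else 1
  have hbb : ∀ (g : G) (hg : g ∈ H), bb g = B (QuotientGroup.mk ⟨g, hg⟩) := fun g hg =>
    dif_pos hg
  refine ⟨{ H := H, fin := hfin, hx := hx, hS := hS, F := F, fld := fld, finF := hF, V := Fin n → F,
            grp := inferInstance, mod := inferInstance, fd := inferInstance,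
            a := fun g => slU (bb g), mul := ?_, sep := ?_, lift := ?_ }⟩
  · intro g hg h hh
    have hgh : g * h ∈ H := H.mul_mem hg hh
    have h1 : σ (bb (g * h)) * C (QuotientGroup.mk ⟨g * h, hgh⟩) =
        σ (bb g * bb h) * (C (QuotientGroup.mk ⟨g, hg⟩) * C (QuotientGroup.mk ⟨h, hh⟩)) := by
      have h2 := hBC (QuotientGroup.mk ⟨g * h, hgh⟩)
      rw [← hbb] at h2
      rw [← h2]
      have h3 : (QuotientGroup.mk ⟨g * h, hgh⟩ : H ⧸ T) =
          QuotientGroup.mk ⟨g, hg⟩ * QuotientGroup.mk ⟨h, hh⟩ := rfl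
      rw [h3]
      conv_lhs => rw [hBC (QuotientGroup.mk ⟨g, hg⟩), hBC (QuotientGroup.mk ⟨h, hh⟩)]
      rw [← hbb, ← hbb, map_mul]
      have h4 := (hC (QuotientGroup.mk ⟨g, hg⟩) (bb h)).eq
      simp only [mul_assoc]
      rw [← mul_assoc (C _) (σ (bb h)), h4]
      simp only [mul_assoc]
    obtain ⟨e, he0, he1⟩ := sl_decomp σ hker (hC _) (fun b' => (hC _ b').mul_left (hC _ b')) h1
    refine ⟨e, he0, ?_⟩
    rw [slU_val, slU_val, slU_val, he1, map_smul, Matrix.SpecialLinearGroup.coe_mul,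
      Matrix.toLin'_mul, Module.End.mul_eq_comp]
  · intro s hs hs1 c hc
    refine hsep ⟨s, hS s hs⟩ hs (fun h0 => hs1 (congrArg Subtype.val h0)) ?_
    rw [hcen]
    intro b
    have h1 : (bb s : Matrix (Fin n) (Fin n) F) = c • 1 := by
      apply Matrix.toLin'.injective
      rw [map_smul, Matrix.toLin'_one]
      exact hc
    have h2 : Commute (bb s) b := by
      apply Subtype.ext
      change (bb s : Matrix (Fin n) (Fin n) F) * (b : Matrix (Fin n) (Fin n) F) =
        (b : Matrix (Fin n) (Fin n) F) * (bb s : Matrix (Fin n) (Fin n) F)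
      rw [h1, smul_mul_assoc, mul_smul_comm, one_mul, mul_one]
    rw [hBC (QuotientGroup.mk ⟨s, hS s hs⟩), ← hbb]
    exact (h2.map σ).mul_left (hC _ b)
  · intro D hD hDx u hu
    have hdet : ∀ v ∈ D, LinearMap.det v.val = 1 := fun v hv => det_eq_one_of_perfect hD hv
    let D1 : Subgroup (SpecialLinearGroup (Fin n) F) := D.comap slHom
    have hD1 : D1.map slHom = D := by
      rw [Subgroup.map_comap_eq, inf_eq_right]
      intro v hv
      obtain ⟨U, hU⟩ := exists_slHom (hdet v hv)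
      exact ⟨U, hU⟩
    have hD1p : ⁅D1, D1⁆ = D1 := by
      apply Subgroup.map_injective slHom_injective
      rw [Subgroup.map_commutator, hD1, hD]
    let D2 : Subgroup (H ⧸ T) := D1.map σ
    have hD2 : D2 ≤ M := by
      rintro _ ⟨b, _, rfl⟩
      exact (hran _).2 ⟨b, rfl⟩
    have hD2p : ⁅D2, D2⁆ = D2 := by
      change ⁅D1.map σ, D1.map σ⁆ = D1.map σ
      rw [← Subgroup.map_commutator, hD1p]
    have hD2x : ∀ d ∈ D2, Commute d (((⟨x, hx⟩ : H) : H ⧸ T)) := by
      rintro _ ⟨b, hb, rfl⟩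
      have h1 : Commute b (bb x) := by
        have h2 : Commute (slHom b) (slHom (bb x)) := hDx _ hb
        apply slHom_injective
        rw [map_mul, map_mul]
        exact h2.eq
      rw [hBC (QuotientGroup.mk ⟨x, hx⟩), ← hbb]
      exact (h1.map σ).mul_right (hC _ b).symm
    obtain ⟨U, rfl⟩ := exists_slHom (hdet u hu)
    obtain ⟨h0, hcomm, hh0⟩ := hlift D2 hD2 hD2p hD2x (σ U) ⟨U, hu, rfl⟩
    refine ⟨(h0 : G), h0.2, congrArg Subtype.val hcomm.eq, ?_⟩
    have h4 : σ (bb (h0 : H)) * C (QuotientGroup.mk h0) = σ U * 1 := by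
      rw [hbb _ h0.2, mul_one, ← hh0]
      exact (hBC _).symm
    obtain ⟨e, he0, he1⟩ := sl_decomp σ hker (hC _) (fun b' => Commute.one_left _) h4
    refine ⟨e, he0, ?_⟩
    rw [slU_val, he1, map_smul]
    rfl

end Pool.Agent.Lib.MP_b9166b_al.Ks2
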