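import Pool.Agent.Lib.MP_b9166b_al.Ks2.LinMain
import Pool.Agent.Lib.MP_b9166b_al.Ks2.CovLin
import Pool.Agent.Lib.MP_b9166b_al.Ks2.CovAlt
import Pool.Agent.Lib.MP_b9166b_al.Ks.AltMain

/-!
# KSS version 2: the theorem
-/

set_option autoImplicit false

namespace Pool.Agent.Lib.MP_b9166b_al.Ks2

open Ks

variable {G : Type} [Group G] {x z : G}

theorem Factor.mono {P P' : (L : Type) → [Group L] → Prop} (hP : ∀ (L : Type) [Group L], P L → P' L)
    {Q : Type} [Group Q] {M : Subgroup Q} (h : Factor P M) : Factor P' M := by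
  obtain ⟨h1, L, hL, σ, h2, h3, h4⟩ := h
  exact ⟨h1, L, hL, σ, hP L h2, h3, h4⟩

theorem Factor.or {P P' : (L : Type) → [Group L] → Prop} {Q : Type} [Group Q] {M : Subgroup Q}
    (h : Factor (fun L _ => P L ∨ P' L) M) : Factor P M ∨ Factor P' M := by
  obtain ⟨h1, L, hL, σ, h2, h3, h4⟩ := h
  rcases h2 with h2 | h2
  · exact Or.inl ⟨h1, L, hL, σ, h2, h3, h4⟩
  · exact Or.inr ⟨h1, L, hL, σ, h2, h3, h4⟩

theorem Cov.or {P P' : (L : Type) → [Group L] → Prop} {H : Subgroup G}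
    (h : Cov (fun L _ => P L ∨ P' L) x z H) : Cov P x z H ∨ Cov P' x z H := by
  obtain ⟨h1, hx, hz, T, hT, M, h2, h3, h4⟩ := h
  rcases h2.or with h2 | h2
  · exact Or.inl ⟨h1, hx, hz, T, hT, M, h2, h3, h4⟩
  · exact Or.inr ⟨h1, hx, hz, T, hT, M, h2, h3, h4⟩

theorem Cov.orderOf_pos {P : (L : Type) → [Group L] → Prop} {H : Subgroup G} (h : Cov P x z H) :
    0 < orderOf x := by
  obtain ⟨h1, hx, _⟩ := h
  have h2 := _root_.orderOf_pos (⟨x, hx⟩ : H)
  rwa [Subgroup.orderOf_mk] at h2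

theorem finPerm_of_cov (hs : IsSimpleGroup G)
    (h : ∀ S : Finset G, ∃ H : Subgroup G, (∀ s ∈ S, s ∈ H) ∧ Cov (fun L _ => IsAlt L) x z H)
    (hc : FinLin (Subgroup.centralizer ({x} : Set G))) : FinPerm G := by
  obtain ⟨H, _, hH⟩ := h ∅
  exact finPerm_of_acov hs hH.orderOf_pos (fun S _ => exists_acov hs h S) hc

theorem kss (hs : IsSimpleGroup G)
    (h : ∀ S : Finset G, ∃ H : Subgroup G, (∀ s ∈ S, s ∈ H) ∧
      Cov (fun L _ => IsSL L ∨ IsAlt L) x z H)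
    (hc : FinLin (Subgroup.centralizer ({x} : Set G))) : FinLin G := by
  classical
  obtain ⟨H₀, _, hH₀⟩ := h ∅
  by_cases hL : ∀ S : Finset G, ∃ H : Subgroup G, (∀ s ∈ S, s ∈ H) ∧ Cov (fun L _ => IsSL L) x z H
  · exact finLin_of_lcov hs hH₀.orderOf_pos (exists_lcov hs hL) hc
  · push Not at hL
    obtain ⟨S₀, hS₀⟩ := hL
    refine (finPerm_of_cov (x := x) (z := z) hs (fun S => ?_) hc).finLin
    obtain ⟨H, hH, hc'⟩ := h (S ∪ S₀)
    refine ⟨H, fun s hs => hH s (Finset.mem_union_left _ hs), ?_⟩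
    rcases hc'.or with h1 | h1
    · exact absurd h1 (hS₀ H fun s hs => hH s (Finset.mem_union_right _ hs))
    · exact h1

end Pool.Agent.Lib.MP_b9166b_al.Ks2
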