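import Mathlib

/-!
# Maps which shift a flag up to small rank
-/

set_option autoImplicit false

namespace Pool.Agent.Lib.MP_b9166b_al.Ks2

open scoped commutatorElement

variable {F V : Type} [Field F] [AddCommGroup V] [Module F V]

/-- f maps D i into D (i + s) up to a space of dimension ≤ B. -/
def Shift (D : ℕ → Submodule F V) (s B : ℕ) (f : V →ₗ[F] V) : Prop :=
  ∀ i, ∃ R : Submodule F V, FiniteDimensional F R ∧ Module.finrank F R ≤ B ∧
    ∀ v ∈ D i, f v ∈ D (i + s) ⊔ R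

theorem shift_sup {R R' : Submodule F V} {B B' : ℕ} (h : FiniteDimensional F R)
    (h' : FiniteDimensional F R') (hB : Module.finrank F R ≤ B) (hB' : Module.finrank F R' ≤ B') :
    FiniteDimensional F (R ⊔ R' : Submodule F V) ∧
      Module.finrank F (R ⊔ R' : Submodule F V) ≤ B + B' := by
  refine ⟨Submodule.finiteDimensional_sup R R', ?_⟩
  exact (Submodule.finrank_add_le_finrank_add_finrank R R').trans (add_le_add hB hB')

theorem Shift.mul {D : ℕ → Submodule F V} {s s' B B' : ℕ} {f g : V →ₗ[F] V} (hf : Shift D s B f)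
    (hg : Shift D s' B' g) : Shift D (s + s') (B + B') (f * g) := by
  intro i
  obtain ⟨R', hR', hB', h'⟩ := hg i
  obtain ⟨R, hR, hB, h⟩ := hf (i + s')
  have hR'' : FiniteDimensional F (R'.map f) := inferInstance
  have hB'' : Module.finrank F (R'.map f) ≤ B' := (Submodule.finrank_map_le f R').trans hB'
  obtain ⟨h1, h2⟩ := shift_sup hR hR'' hB hB''
  refine ⟨R ⊔ R'.map f, h1, h2, fun v hv => ?_⟩
  obtain ⟨d, hd, r, hr, e⟩ := Submodule.mem_sup.1 (h' v hv)
  rw [show (f * g) v = f (g v) from rfl, ← e, map_add, show i + (s + s') = i + s' + s by omega,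
    ← sup_assoc]
  exact Submodule.add_mem_sup (h d hd) (Submodule.mem_map_of_mem hr)

theorem Shift.sub {D : ℕ → Submodule F V} {s B B' : ℕ} {f g : V →ₗ[F] V} (hf : Shift D s B f)
    (hg : Shift D s B' g) : Shift D s (B + B') (f - g) := by
  intro i
  obtain ⟨R', hR', hB', h'⟩ := hg i
  obtain ⟨R, hR, hB, h⟩ := hf i
  obtain ⟨h1, h2⟩ := shift_sup hR hR' hB hB'
  refine ⟨R ⊔ R', h1, h2, fun v hv => ?_⟩
  rw [LinearMap.sub_apply]
  have a1 : D (i + s) ⊔ R ≤ D (i + s) ⊔ (R ⊔ R') := sup_le_sup_left le_sup_left _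
  have a2 : D (i + s) ⊔ R' ≤ D (i + s) ⊔ (R ⊔ R') := sup_le_sup_left le_sup_right _
  exact Submodule.sub_mem _ (a1 (h v hv)) (a2 (h' v hv))

theorem Shift.mul_stable {D : ℕ → Submodule F V} {s B : ℕ} {f g : V →ₗ[F] V} (hf : Shift D s B f)
    (hg : ∀ i, ∀ v ∈ D i, g v ∈ D i) : Shift D s B (f * g) := by
  intro i
  obtain ⟨R, hR, hB, h⟩ := hf i
  exact ⟨R, hR, hB, fun v hv => h (g v) (hg i v hv)⟩

/-- ⁅y1, y2⁆ - 1 = (δ1 δ2 - δ2 δ1) y1⁻¹ y2⁻¹, δ = y - 1 -/
theorem Shift.comm {D : ℕ → Submodule F V} {s s' B B' : ℕ} {y y' : (V →ₗ[F] V)ˣ}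
    (hy : Shift D s B (y.val - 1)) (hy' : Shift D s' B' (y'.val - 1))
    (h1 : ∀ i, ∀ v ∈ D i, (y⁻¹).val v ∈ D i) (h2 : ∀ i, ∀ v ∈ D i, (y'⁻¹).val v ∈ D i) :
    Shift D (s + s') (2 * (B + B')) ((⁅y, y'⁆ : (V →ₗ[F] V)ˣ).val - 1) := by
  have e : (⁅y, y'⁆ : (V →ₗ[F] V)ˣ).val - 1 =
      ((y.val - 1) * (y'.val - 1) - (y'.val - 1) * (y.val - 1)) *
        ((y⁻¹).val * (y'⁻¹).val) := by
    have e1 : (y.val - 1) * (y'.val - 1) - (y'.val - 1) * (y.val - 1) =
        y.val * y'.val - y'.val * y.val := by noncomm_ring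
    have e2 : y'.val * y.val * ((y⁻¹).val * (y'⁻¹).val) = 1 := by
      rw [mul_assoc, ← mul_assoc y.val, Units.mul_inv, one_mul, Units.mul_inv]
    rw [e1, sub_mul, e2, commutatorElement_def, Units.val_mul, Units.val_mul, Units.val_mul,
      mul_assoc (y.val * y'.val)]
  have h3 := hy.mul hy'
  have h4 := hy'.mul hy
  rw [add_comm s' s, add_comm B' B] at h4
  rw [e, two_mul]
  exact (h3.sub h4).mul_stable fun i v hv => h1 i _ (h2 i v hv)

theorem Shift.finrank_le {D : ℕ → Submodule F V} {s B k : ℕ} {f : V →ₗ[F] V} (hf : Shift D s B f)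
    (h0 : D 0 = ⊤) (hk : ∀ i, k ≤ i → D i = ⊥) (hs : k ≤ s) :
    Module.finrank F (LinearMap.range f) ≤ B := by
  obtain ⟨R, hR, hB, h⟩ := hf 0
  have hle : LinearMap.range f ≤ R := by
    rintro _ ⟨v, rfl⟩
    have h1 := h v (by rw [h0]; exact Submodule.mem_top)
    rwa [zero_add, hk s hs, bot_sup_eq] at h1
  exact (Submodule.finrank_mono hle).trans hB

end Pool.Agent.Lib.MP_b9166b_al.Ks2
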