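import Pool.Agent.Lib.MP_b9166b_al.Ks2.Sect
import Pool.Agent.Lib.MP_b9166b_al.Ks2.Shift

/-!
# Bounds by sections
-/

set_option autoImplicit false

namespace Pool.Agent.Lib.MP_b9166b_al.Ks2

open Ks
open scoped commutatorElement

variable {F V : Type} [Field F] [AddCommGroup V] [Module F V] {a : V →ₗ[F] V} {m : ℕ}

/-- The restriction of a unit. -/
theorem Sect.exists_res (P : Sect F V a m) (y : (V →ₗ[F] V)ˣ) (hy : Commute y.val a)
    (hy' : Commute (y⁻¹).val a) :
    ∃ u : (P.X →ₗ[P.E] P.X)ˣ, (∀ v : P.D, P.π ⟨y.val v, P.stab _ hy v v.2⟩ = u.val (P.π v)) ∧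
      ∀ v : P.D, P.π ⟨(y⁻¹).val v, P.stab _ hy' v v.2⟩ = (u⁻¹).val (P.π v) := by
  obtain ⟨u, hu⟩ := P.res y.val hy
  obtain ⟨u', hu'⟩ := P.res (y⁻¹).val hy'
  have e1 : u * u' = 1 := by
    refine LinearMap.ext fun x => ?_
    obtain ⟨v, rfl⟩ := P.surj x
    rw [Module.End.mul_apply, ← hu' v, ← hu, Module.End.one_apply]
    congr 1
    apply Subtype.ext
    change y.val ((y⁻¹).val (v : V)) = v
    rw [← Module.End.mul_apply, Units.mul_inv, Module.End.one_apply]
  have e2 : u' * u = 1 := by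
    refine LinearMap.ext fun x => ?_
    obtain ⟨v, rfl⟩ := P.surj x
    rw [Module.End.mul_apply, ← hu v, ← hu', Module.End.one_apply]
    congr 1
    apply Subtype.ext
    change (y⁻¹).val (y.val (v : V)) = v
    rw [← Module.End.mul_apply, Units.inv_mul, Module.End.one_apply]
  exact ⟨⟨u, u', e1, e2⟩, hu, hu'⟩

/-- the dimension over `F` of a subspace of a section -/
theorem Sect.finrank_le (P : Sect F V a m) (Y : Submodule P.E P.X) {B : ℕ}
    (hY : Module.finrank P.E Y ≤ B) :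
    Module.finrank F (Y.restrictScalars F) ≤ m * B := by
  have h1 : Module.finrank F (Y.restrictScalars F) = Module.finrank F Y := rfl
  rw [h1, ← Module.finrank_mul_finrank F P.E Y]
  exact Nat.mul_le_mul P.hE hY

theorem Sect.finrank_X_le (P : Sect F V a m) {B : ℕ} (hY : Module.finrank P.E P.X ≤ B) :
    Module.finrank F P.X ≤ m * B := by
  rw [← Module.finrank_mul_finrank F P.E P.X]
  exact Nat.mul_le_mul P.hE hY

/-- dim V = Σ dim_F X_i ≤ k m max dim_E X_i. -/
theorem exists_large_sect [FiniteDimensional F V] {k : ℕ} (P : ℕ → Sect F V a m)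
    (h0 : (P 0).D = ⊤) (hk : ∀ i, k ≤ i → (P i).D = ⊥)
    (hP : ∀ i, ∀ v : (P i).D, (P i).π v = 0 ↔ (v : V) ∈ (P (i + 1)).D) {N : ℕ}
    (hN : k * (m * N) < Module.finrank F V) :
    ∃ i, N < Module.finrank (P i).E (P i).X := by
  by_contra hcon
  push Not at hcon
  have step : ∀ i, Module.finrank F (P i).D ≤ Module.finrank F (P (i + 1)).D + m * N := by
    intro i
    have h1 := LinearMap.finrank_range_add_finrank_ker (P i).π
    have h2 : Module.finrank F (LinearMap.range (P i).π) ≤ m * N := by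
      rw [LinearMap.range_eq_top.2 (P i).surj, finrank_top]
      exact (P i).finrank_X_le (hcon i)
    have h3 : Module.finrank F (LinearMap.ker (P i).π) ≤ Module.finrank F (P (i + 1)).D := by
      refine LinearMap.finrank_le_finrank_of_injective
        (f := LinearMap.codRestrict (P (i + 1)).D
          ((P i).D.subtype ∘ₗ (LinearMap.ker (P i).π).subtype) fun v => ?_) ?_
      · exact (hP i v.1).1 v.2
      · intro v w hvw
        apply Subtype.ext
        apply Subtype.ext
        have h4 := congrArg (fun z : (P (i + 1)).D => (z : V)) hvw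
        exact h4
    omega
  have main : ∀ j, Module.finrank F (P 0).D ≤ Module.finrank F (P j).D + j * (m * N) := by
    intro j
    induction j with
    | zero => simp
    | succ j ih =>
      have := step j
      rw [Nat.add_mul, Nat.one_mul]
      omega
  have h1 := main k
  rw [h0, hk k le_rfl, finrank_top, finrank_bot] at h1
  omega

/-- The commutator of a map which is small up to a scalar. -/
theorem comm_rank_le {E X : Type} [Field E] [AddCommGroup X] [Module E X] [FiniteDimensional E X]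
    (u1 u2 : (X →ₗ[E] X)ˣ) {B : ℕ} (h : Module.finrank E X ≤ B ∨
      ∃ c : E, Module.finrank E (LinearMap.range (u1.val - c • 1)) ≤ B) :
    Module.finrank E (LinearMap.range ((⁅u1, u2⁆ : (X →ₗ[E] X)ˣ).val - 1)) ≤ 2 * B := by
  rcases h with hs | ⟨c, hc⟩
  · exact (Submodule.finrank_le _).trans (hs.trans (by omega))
  · set R := u1.val - c • (1 : X →ₗ[E] X) with hR
    have he : u1.val * u2.val - u2.val * u1.val = R * u2.val - u2.val * R := by
      rw [hR, sub_mul, mul_sub, smul_mul_assoc, mul_smul_comm, one_mul, mul_one]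
      abel
    have he2 : (⁅u1, u2⁆ : (X →ₗ[E] X)ˣ).val - 1 =
        (u1.val * u2.val - u2.val * u1.val) * ((u1⁻¹).val * (u2⁻¹).val) := by
      rw [sub_mul]
      congr 1
      · have h1 : u2.val * u1.val * ((u1⁻¹).val * (u2⁻¹).val) =
            ((u2 * u1 * (u1⁻¹ * u2⁻¹) : (X →ₗ[E] X)ˣ)).val := by
          simp only [Units.val_mul]
        rw [h1]
        have h2 : u2 * u1 * (u1⁻¹ * u2⁻¹) = 1 := by group
        rw [h2, Units.val_one]
    have hle : LinearMap.range ((⁅u1, u2⁆ : (X →ₗ[E] X)ˣ).val - 1) ≤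
        LinearMap.range R ⊔ Submodule.map u2.val (LinearMap.range R) := by
      rw [he2, he]
      rintro _ ⟨w, rfl⟩
      rw [Module.End.mul_apply, LinearMap.sub_apply, Module.End.mul_apply, Module.End.mul_apply]
      exact Submodule.sub_mem_sup (LinearMap.mem_range_self R _)
        (Submodule.mem_map_of_mem (LinearMap.mem_range_self R _))
    have e1 := Submodule.finrank_mono hle
    have e2 := Submodule.finrank_add_le_finrank_add_finrank (LinearMap.range R)
      (Submodule.map u2.val (LinearMap.range R))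
    have e3 := Submodule.finrank_map_le u2.val (LinearMap.range R)
    omega

/-- y1 small on every section (of dimension ≤ B or a scalar up to rank ≤ B), y2 commuting with a:
y = ⁅y1, y2⁆ has y - 1 of E-rank ≤ 2 B on every section, so y - 1 maps D_i into D_(i+1) up to dimension
2 B m. -/
theorem shift_one_of_small [FiniteDimensional F V] (P : ℕ → Sect F V a m)
    (hP : ∀ i, ∀ v : (P i).D, (P i).π v = 0 ↔ (v : V) ∈ (P (i + 1)).D) {B : ℕ}
    (y1 y2 : (V →ₗ[F] V)ˣ) (h1 : Commute y1.val a) (h2 : Commute y2.val a)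
    (hB : ∀ i, ∀ u : (P i).X →ₗ[(P i).E] (P i).X,
      (∀ v : (P i).D, (P i).π ⟨y1.val v, (P i).stab _ h1 v v.2⟩ = u ((P i).π v)) →
      Module.finrank (P i).E (P i).X ≤ B ∨
        ∃ c : (P i).E, Module.finrank (P i).E (LinearMap.range (u - c • 1)) ≤ B) :
    Shift (fun i => (P i).D) 1 (2 * B * m) ((⁅y1, y2⁆ : (V →ₗ[F] V)ˣ).val - 1) := by
  intro i
  have h1' : Commute (y1⁻¹).val a := h1.units_inv_left
  have h2' : Commute (y2⁻¹).val a := h2.units_inv_left
  obtain ⟨u1, hu1, hu1'⟩ := (P i).exists_res y1 h1 h1'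
  obtain ⟨u2, hu2, hu2'⟩ := (P i).exists_res y2 h2 h2'
  haveI : FiniteDimensional F (P i).X := Module.Finite.of_surjective (P i).π (P i).surj
  set Y : Submodule (P i).E (P i).X :=
    LinearMap.range ((⁅u1, u2⁆ : ((P i).X →ₗ[(P i).E] (P i).X)ˣ).val - 1) with hY
  have hYr : Module.finrank (P i).E Y ≤ 2 * B := comm_rank_le u1 u2 (hB i u1.val hu1)
  have hYF := (P i).finrank_le Y hYr
  obtain ⟨σ, hσ⟩ := (P i).π.exists_rightInverse_of_surjective
    (LinearMap.range_eq_top.2 (P i).surj)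
  have hσ' : ∀ x, (P i).π (σ x) = x := fun x => by
    have := congrArg (fun z : (P i).X →ₗ[F] (P i).X => z x) hσ
    exact this
  refine ⟨Submodule.map ((P i).D.subtype ∘ₗ σ) (Y.restrictScalars F), inferInstance, ?_, ?_⟩
  · have e1 := Submodule.finrank_map_le ((P i).D.subtype ∘ₗ σ) (Y.restrictScalars F)
    have e2 : m * (2 * B) = 2 * B * m := by ring
    omega
  · intro v hv
    -- the commutator on the section
    have hc : Commute (⁅y1, y2⁆ : (V →ₗ[F] V)ˣ).val a := by
      rw [commutatorElement_def]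
      simp only [Units.val_mul]
      exact ((h1.mul_left h2).mul_left h1').mul_left h2'
    have hd : Commute ((⁅y1, y2⁆ : (V →ₗ[F] V)ˣ).val - 1) a := hc.sub_left (Commute.one_left a)
    have hmem : ((⁅y1, y2⁆ : (V →ₗ[F] V)ˣ).val - 1) v ∈ (P i).D := (P i).stab _ hd v hv
    have hπ : (P i).π ⟨((⁅y1, y2⁆ : (V →ₗ[F] V)ˣ).val - 1) v, hmem⟩ =
        ((⁅u1, u2⁆ : ((P i).X →ₗ[(P i).E] (P i).X)ˣ).val - 1) ((P i).π ⟨v, hv⟩) := by
      have hcm : (⁅y1, y2⁆ : (V →ₗ[F] V)ˣ).val v ∈ (P i).D := (P i).stab _ hc v hv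
      have e1 : (⟨((⁅y1, y2⁆ : (V →ₗ[F] V)ˣ).val - 1) v, hmem⟩ : (P i).D) =
          ⟨(⁅y1, y2⁆ : (V →ₗ[F] V)ˣ).val v, hcm⟩ - ⟨v, hv⟩ := rfl
      rw [e1, map_sub, LinearMap.sub_apply, Module.End.one_apply]
      congr 1
      have w1 := (P i).stab _ h2' v hv
      have w2 := (P i).stab _ h1' _ w1
      have w3 := (P i).stab _ h2 _ w2
      have w4 := (P i).stab _ h1 _ w3
      have e2 : (⟨(⁅y1, y2⁆ : (V →ₗ[F] V)ˣ).val v, hcm⟩ : (P i).D) = ⟨_, w4⟩ := by
        apply Subtype.ext
        change (⁅y1, y2⁆ : (V →ₗ[F] V)ˣ).val v = y1.val (y2.val ((y1⁻¹).val ((y2⁻¹).val v)))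
        rw [commutatorElement_def]
        simp only [Units.val_mul, Module.End.mul_apply]
      rw [e2]
      have f1 := hu1 ⟨_, w3⟩
      have f2 := hu2 ⟨_, w2⟩
      have f3 := hu1' ⟨_, w1⟩
      have f4 := hu2' ⟨v, hv⟩
      rw [commutatorElement_def]
      simp only [Units.val_mul, Module.End.mul_apply]
      rw [← f4, ← f3, ← f2, ← f1]
    have hy : (P i).π ⟨((⁅y1, y2⁆ : (V →ₗ[F] V)ˣ).val - 1) v, hmem⟩ ∈ Y := by
      rw [hπ]
      exact LinearMap.mem_range_self _ _
    set w : (P i).D := ⟨((⁅y1, y2⁆ : (V →ₗ[F] V)ˣ).val - 1) v, hmem⟩ with hw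
    have hk : ((w - σ ((P i).π w) : (P i).D) : V) ∈ (P (i + 1)).D := by
      rw [← hP i, map_sub, hσ', sub_self]
    have hr : ((σ ((P i).π w) : (P i).D) : V) ∈
        Submodule.map ((P i).D.subtype ∘ₗ σ) (Y.restrictScalars F) :=
      Submodule.mem_map_of_mem (f := (P i).D.subtype ∘ₗ σ) (p := Y.restrictScalars F) hy
    have e3 : ((⁅y1, y2⁆ : (V →ₗ[F] V)ˣ).val - 1) v =
        ((w - σ ((P i).π w) : (P i).D) : V) + ((σ ((P i).π w) : (P i).D) : V) := by
      rw [Submodule.coe_sub, sub_add_cancel]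
    rw [e3]
    exact Submodule.add_mem_sup hk hr

end Pool.Agent.Lib.MP_b9166b_al.Ks2
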