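import Pool.Agent.Lib.MP_b9166b_al.Ks2.LCov
import Pool.Agent.Lib.MP_b9166b_al.Ks2.SectB
import Pool.Agent.Lib.MP_b9166b_al.Ks2.Perfect
import Pool.Agent.Lib.MP_b9166b_al.Ks.Core

/-!
# The core for sections
-/

set_option autoImplicit false

namespace Pool.Agent.Lib.MP_b9166b_al.Ks2

open Ks
open scoped commutatorElement

variable {G : Type} [Group G] {x : G} {S : Finset G}

/-- The inverse of a unit commuting with a. -/
theorem commute_inv_val {F V : Type} [Field F] [AddCommGroup V] [Module F V] {a : V →ₗ[F] V}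
    {b : (V →ₗ[F] V)ˣ} (h : Commute b.val a) : Commute (b⁻¹).val a := by
  change (b⁻¹).val * a = a * (b⁻¹).val
  calc (b⁻¹).val * a = (b⁻¹).val * (a * b.val) * (b⁻¹).val := by
        rw [mul_assoc, mul_assoc, Units.mul_inv, mul_one]
    _ = (b⁻¹).val * (b.val * a) * (b⁻¹).val := by rw [h.eq]
    _ = a * (b⁻¹).val := by rw [← mul_assoc, Units.inv_mul, one_mul]

/-- b acts on the section P as u. -/
def Acts {F V : Type} [Field F] [AddCommGroup V] [Module F V] {a : V →ₗ[F] V} {m : ℕ}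
    (P : Sect F V a m) (b : (V →ₗ[F] V)ˣ) (u : (P.X →ₗ[P.E] P.X)ˣ) : Prop :=
  ∃ h : Commute b.val a, ∀ v : P.D, P.π ⟨b.val v, P.stab _ h v v.2⟩ = u.val (P.π v)

section Acts

variable {F V : Type} [Field F] [AddCommGroup V] [Module F V] {a : V →ₗ[F] V} {m : ℕ}
  {P : Sect F V a m}

theorem Acts.one : Acts P 1 1 := ⟨Commute.one_left _, fun v => rfl⟩

theorem Acts.mul {b b' : (V →ₗ[F] V)ˣ} {u u' : (P.X →ₗ[P.E] P.X)ˣ} (h : Acts P b u)
    (h' : Acts P b' u') : Acts P (b * b') (u * u') := by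
  obtain ⟨hc, hv⟩ := h
  obtain ⟨hc', hv'⟩ := h'
  refine ⟨hc.mul_left hc', fun v => ?_⟩
  have h1 := hv ⟨b'.val v, P.stab _ hc' v v.2⟩
  rw [hv' v] at h1
  exact h1

theorem Acts.inv {b : (V →ₗ[F] V)ˣ} {u : (P.X →ₗ[P.E] P.X)ˣ} (h : Acts P b u) :
    Acts P b⁻¹ u⁻¹ := by
  obtain ⟨hc, hv⟩ := h
  refine ⟨commute_inv_val hc, fun v => ?_⟩
  have h1 := hv ⟨(b⁻¹).val v, P.stab _ (commute_inv_val hc) v v.2⟩
  have h2 : (⟨b.val ((b⁻¹).val v), P.stab _ hc _ (P.stab _ (commute_inv_val hc) v v.2)⟩ : P.D) =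
      v := by
    apply Subtype.ext
    change b.val ((b⁻¹).val (v : V)) = v
    rw [← Module.End.mul_apply, Units.mul_inv, Module.End.one_apply]
  have h3 : P.π v = u.val (P.π ⟨(b⁻¹).val v, P.stab _ (commute_inv_val hc) v v.2⟩) := by
    rw [← h1]
    exact congrArg P.π h2.symm
  rw [h3, ← Module.End.mul_apply, Units.inv_mul, Module.End.one_apply]

theorem Acts.comm {b b' : (V →ₗ[F] V)ˣ} {u u' : (P.X →ₗ[P.E] P.X)ˣ} (h : Acts P b u)
    (h' : Acts P b' u') : Acts P ⁅b, b'⁆ ⁅u, u'⁆ := by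
  rw [commutatorElement_def, commutatorElement_def]
  exact ((h.mul h').mul h.inv).mul h'.inv

/-- A scalar acts as a scalar. -/
theorem Acts.smul_eq {b : (V →ₗ[F] V)ˣ} {u : (P.X →ₗ[P.E] P.X)ˣ} (h : Acts P b u) {e : F}
    (hb : b.val = e • 1) (w : P.X) : u.val w = e • w := by
  obtain ⟨hc, hv⟩ := h
  obtain ⟨v, rfl⟩ := P.surj w
  rw [← hv v, ← map_smul]
  congr 1
  apply Subtype.ext
  change b.val (v : V) = e • (v : V)
  rw [hb]
  rfl

theorem exists_acts (P : Sect F V a m) (θ : (P.X →ₗ[P.E] P.X)ˣ) : ∃ b, Acts P b θ := by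
  obtain ⟨b, hb, h⟩ := P.lift θ
  exact ⟨b, hb, h⟩

/-- A commutator of automorphisms of the section is induced by a map of determinant 1. -/
theorem exists_acts_comm (P : Sect F V a m) (θ θ' : (P.X →ₗ[P.E] P.X)ˣ) :
    ∃ b, Acts P b ⁅θ, θ'⁆ ∧ LinearMap.det b.val = 1 := by
  obtain ⟨b, hb⟩ := exists_acts P θ
  obtain ⟨b', hb'⟩ := exists_acts P θ'
  exact ⟨⁅b, b'⁆, hb.comm hb', det_commutator b b'⟩

end Acts

/-- Even permutations of the vectors of a section are induced by elements of H commuting with x. -/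
theorem exists_lift_alt (c : LCov x S) {m : ℕ} (P : Sect c.F c.V (c.a x).val m) {ι : Type}
    [Fintype ι] [DecidableEq ι] (h5 : 5 ≤ Nat.card ι)
    (Θ : Equiv.Perm ι →* (P.X →ₗ[P.E] P.X)ˣ) {π : Equiv.Perm ι} (hπ : π ∈ alternatingGroup ι) :
    ∃ g ∈ c.H, Commute g x ∧ ∃ b, Acts P b (Θ π) ∧
      ∃ e : c.F, e ≠ 0 ∧ (c.a g).val = e • b.val := by
  have : Finite c.V := Module.finite_of_finite c.F
  have : Finite (c.V →ₗ[c.F] c.V) := Finite.of_injective (fun f => (f : c.V → c.V))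
    DFunLike.coe_injective
  obtain ⟨D, hD, hD1, hD2⟩ := exists_perfect (A := alternatingGroup ι) (B := (c.V →ₗ[c.F] c.V)ˣ)
    (commutator_alternatingGroup_eq_top h5) (fun b π => Acts P b (Θ π))
    (by simpa using Acts.one) (fun b b' π π' h h' => by
      rw [Subgroup.coe_mul, map_mul]
      exact h.mul h') (fun b π h => by
      rw [Subgroup.coe_inv, map_inv]
      exact h.inv) (fun π => exists_acts P _)
  obtain ⟨b, hb, hbπ⟩ := hD1 ⟨π, hπ⟩
  have hcomm : ∀ u ∈ D, Commute u (c.a x) := by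
    intro u hu
    obtain ⟨_, hc, _⟩ := hD2 u hu
    exact Units.ext hc.eq
  obtain ⟨g, hgH, hgx, e, he, hge⟩ := c.lift D hD hcomm b hb
  exact ⟨g, hgH, hgx, b, hbπ, e, he, hge⟩

/-- As Ks.core, with a section in place of a part: Rel g π := ∃ b commuting with a_x, a_g = e b, b acts on X
by a unit which maps w (inl (inl i)) to w (inl (inl (π i))). -/
theorem core (c : LCov x S) {K VK : Type} [Field K] [AddCommGroup VK] [Module K VK]
    (ρ : Subgroup.centralizer ({x} : Set G) →* (VK →ₗ[K] VK)ˣ) (hρ : Function.Injective ρ)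
    {y : Subgroup.centralizer ({x} : Set G)} (hy : (y : G) ∈ c.H)
    (hyx : Commute (c.a y).val (c.a x).val)
    {d r : ℕ} [Fact r.Prime] (hr : (r : K) ≠ 0) (hd : Deg (ρ y).val d) (hdr : 3 * d < r)
    {m : ℕ} (P : Sect c.F c.V (c.a x).val m) (u : P.X →ₗ[P.E] P.X)
    (hu : ∀ v : P.D, P.π ⟨(c.a y).val v, P.stab _ hyx v v.2⟩ = u (P.π v)) :
    Module.finrank P.E P.X ≤ 4 * r ^ 2 ∨
      ∃ e : P.E, Module.finrank P.E (LinearMap.range (u - e • 1)) ≤ 4 * r ^ 2 := by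
  classical
  by_contra hcon
  push Not at hcon
  obtain ⟨hc1, hc2⟩ := hcon
  obtain ⟨uy, hu1, hu2⟩ := P.exists_res (c.a y) hyx (commute_inv_val hyx)
  have huy : uy.val = u := by
    ext w
    obtain ⟨v, rfl⟩ := P.surj w
    rw [← hu1, ← hu]
  have hay : Acts P (c.a y) uy := ⟨hyx, hu1⟩
  obtain ⟨v, hv⟩ := exists_indep uy (2 * r ^ 2) (by omega) (by
    intro e
    have := hc2 e
    rw [huy]
    omega)
  let ι := ZMod r × ZMod r
  have hcard : Fintype.card (ι ⊕ ι) = 2 * r ^ 2 := by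
    rw [Fintype.card_sum, Fintype.card_prod, ZMod.card]
    ring
  let e0 : ι ⊕ ι ≃ Fin (2 * r ^ 2) := Fintype.equivFinOfCardEq hcard
  let w : (ι ⊕ ι) ⊕ (ι ⊕ ι) → P.X := Sum.elim (fun k => v (e0 k)) (fun k => (uy⁻¹).val (v (e0 k)))
  have hw : LinearIndependent P.E w := by
    have h1 := hv.comp (Sum.map e0 e0) (Sum.map_injective.2 ⟨e0.injective, e0.injective⟩)
    have h2 : w = Sum.elim v (fun i => (uy⁻¹).val (v i)) ∘ Sum.map e0 e0 := by
      funext k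
      rcases k with k | k <;> rfl
    rw [h2]
    exact h1
  have hwr : ∀ k, w (Sum.inr k) = (uy⁻¹).val (w (Sum.inl k)) := fun k => rfl
  obtain ⟨Θ, hΘ1, hΘ2⟩ := exists_perm_rep w hw
  let sw : Equiv.Perm (ι ⊕ ι) := Equiv.sumComm ι ι
  let A : Equiv.Perm ι → Equiv.Perm (ι ⊕ ι) := fun π => Equiv.sumCongr π (Equiv.refl ι)
  have hA : ∀ (π : Equiv.Perm ι) (i : ι), (⁅A π, sw⁆ : Equiv.Perm (ι ⊕ ι)) (Sum.inl i) =
      Sum.inl (π i) := by
    intro π i
    rw [commutatorElement_def]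
    rfl
  have hΘc : ∀ π : Equiv.Perm ι, Θ ⁅A π, sw⁆ = ⁅Θ (A π), Θ sw⁆ := fun π =>
    map_commutatorElement _ _ _
  have hlift : ∀ π : Equiv.Perm ι, ∃ g : Subgroup.centralizer ({x} : Set G), (g : G) ∈ c.H ∧
      ∃ b, Acts P b (Θ ⁅A π, sw⁆) ∧ ∃ e : c.F, e ≠ 0 ∧ (c.a g).val = e • b.val := by
    intro π
    have h5 : 5 ≤ Nat.card (ι ⊕ ι) := by
      rw [Nat.card_eq_fintype_card, hcard]
      have h3 : 2 ≤ r := (Fact.out : r.Prime).two_le
      nlinarith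
    obtain ⟨g, hgH, hgx, b, hb, e, he, hge⟩ := exists_lift_alt c P h5 Θ (π := ⁅A π, sw⁆) (by
      rw [Equiv.Perm.mem_alternatingGroup, map_commutatorElement]
      exact commutatorElement_eq_one_iff_mul_comm.2 (mul_comm _ _))
    exact ⟨⟨g, Subgroup.mem_centralizer_singleton_iff.2 hgx.eq⟩, hgH, b, hb, e, he, hge⟩
  let Rel : Subgroup.centralizer ({x} : Set G) → Equiv.Perm ι → Prop := fun g π =>
    ∃ (b : (c.V →ₗ[c.F] c.V)ˣ) (θ : (P.X →ₗ[P.E] P.X)ˣ), Acts P b θ ∧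
      (∃ e : c.F, e ≠ 0 ∧ (c.a g).val = e • b.val) ∧
      ∀ i, θ.val (w (Sum.inl (Sum.inl i))) = w (Sum.inl (Sum.inl (π i)))
  let M : Subgroup (Subgroup.centralizer ({x} : Set G)) :=
    c.H.subgroupOf (Subgroup.centralizer ({x} : Set G))
  have hM : ∀ g : Subgroup.centralizer ({x} : Set G), g ∈ M ↔ (g : G) ∈ c.H := fun g =>
    Subgroup.mem_subgroupOf
  have : Finite M := by
    refine Finite.of_injective (β := c.H) (fun g => ⟨(g.1 : G), (hM g.1).1 g.2⟩) ?_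
    intro a b hab
    simp only [Subtype.mk.injEq] at hab
    exact Subtype.ext (Subtype.ext hab)
  -- the commutators
  have hRel : ∀ (π : Equiv.Perm ι) (g : Subgroup.centralizer ({x} : Set G)), (g : G) ∈ c.H →
      (∃ b, Acts P b (Θ ⁅A π, sw⁆) ∧ ∃ e : c.F, e ≠ 0 ∧ (c.a g).val = e • b.val) →
      Rel ⁅g, y⁆ π := by
    rintro π g hg ⟨b, hb, e, he, hge⟩
    obtain ⟨e1, he1, h1⟩ := c.a_comm hg hy
    refine ⟨⁅b, c.a y⁆, ⁅Θ ⁅A π, sw⁆, uy⁆, hb.comm hay, ⟨e1, he1, ?_⟩, ?_⟩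
    · have h2 : ((⁅g, y⁆ : Subgroup.centralizer ({x} : Set G)) : G) = ⁅(g : G), (y : G)⁆ := rfl
      rw [h2, h1, comm_val_smul he hge]
    · intro i
      have s2 : ((Θ ⁅A π, sw⁆)⁻¹).val (w (Sum.inr (Sum.inl i))) = w (Sum.inr (Sum.inl i)) :=
        inv_fix (hΘ2 _ _)
      have s3 : uy.val (w (Sum.inr (Sum.inl i))) = w (Sum.inl (Sum.inl i)) := by
        rw [hwr, ← Module.End.mul_apply, Units.mul_inv, Module.End.one_apply]
      have s4 : (Θ ⁅A π, sw⁆).val (w (Sum.inl (Sum.inl i))) = w (Sum.inl (Sum.inl (π i))) := by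
        rw [hΘ1, hA]
      rw [commutatorElement_def (Θ ⁅A π, sw⁆) uy]
      simp only [Units.val_mul, Module.End.mul_apply]
      rw [← hwr, s2, s3, s4]
  obtain ⟨g1, hg1, hge1⟩ := hlift (hp r)
  obtain ⟨g2, hg2, hge2⟩ := hlift (hq r)
  have key := le_of_pair ρ hρ hr hd (M := M) ((hM y).2 hy) ((hM g1).2 hg1) ((hM g2).2 hg2) Rel
    (hRel _ g1 hg1 hge1) (hRel _ g2 hg2 hge2)
    (by
      obtain ⟨e, he, h1⟩ := c.a_one
      exact ⟨1, 1, Acts.one, ⟨e, he, h1⟩, fun i => rfl⟩)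
    (by
      rintro g hg h hh π π' ⟨b, θ, hbθ, ⟨e, he, hb⟩, hbi⟩ ⟨b', θ', hbθ', ⟨e', he', hb'⟩, hbi'⟩
      obtain ⟨f, hf, h1⟩ := c.mul g ((hM g).1 hg) h ((hM h).1 hh)
      refine ⟨b * b', θ * θ', hbθ.mul hbθ',
        ⟨f * (e * e'), mul_ne_zero hf (mul_ne_zero he he'), ?_⟩, fun i => ?_⟩
      · have h2 : ((g * h : Subgroup.centralizer ({x} : Set G)) : G) = (g : G) * (h : G) := rfl
        rw [h2, h1, hb, hb', smul_mul_smul_comm, smul_smul, Units.val_mul]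
      · rw [Units.val_mul, Module.End.mul_apply, hbi', hbi]
        rfl)
    (by
      rintro g hg π ⟨b, θ, hbθ, ⟨e, he, hb⟩, hbi⟩
      obtain ⟨f, hf, h1⟩ := c.a_inv ((hM g).1 hg)
      refine ⟨b⁻¹, θ⁻¹, hbθ.inv, ⟨f * e⁻¹, mul_ne_zero hf (inv_ne_zero he), ?_⟩, fun i => ?_⟩
      · have h2 : ((g⁻¹ : Subgroup.centralizer ({x} : Set G)) : G) = (g : G)⁻¹ := rfl
        rw [h2, h1, inv_val_smul he hb, smul_smul]
      · apply inv_fix
        rw [hbi]
        congr 3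
        exact π.apply_symm_apply i)
    (by
      rintro π ⟨b, θ, hbθ, ⟨e, he, hb⟩, hbi⟩
      obtain ⟨f, hf, h1⟩ := c.a_one
      have h2 : ((1 : Subgroup.centralizer ({x} : Set G)) : G) = 1 := rfl
      rw [h2, h1] at hb
      ext1 i
      rw [Equiv.Perm.one_apply]
      have h3 : b.val = (e⁻¹ * f) • (1 : c.V →ₗ[c.F] c.V) := by
        rw [mul_smul, hb, smul_smul, inv_mul_cancel₀ he, one_smul]
      have h5 : (e⁻¹ * f) • w (Sum.inl (Sum.inl i)) = w (Sum.inl (Sum.inl (π i))) := by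
        rw [← hbi i, hbθ.smul_eq h3]
      by_contra hne
      have h6 := hw.notMem_span_image (s := {Sum.inl (Sum.inl i)}) (x := Sum.inl (Sum.inl (π i)))
        (by
          intro h
          rw [Set.mem_singleton_iff] at h
          exact hne (Sum.inl_injective (Sum.inl_injective h)))
      apply h6
      rw [← h5, Set.image_singleton]
      have h7 : (e⁻¹ * f) • w (Sum.inl (Sum.inl i)) =
          (algebraMap c.F P.E (e⁻¹ * f)) • w (Sum.inl (Sum.inl i)) := by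
        rw [algebraMap_smul]
      rw [h7]
      exact Submodule.smul_mem _ _ (Submodule.mem_span_singleton_self _))
  omega

end Pool.Agent.Lib.MP_b9166b_al.Ks2
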