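import Pool.Agent.Lib.MP_b9166b_al.Ks.Defs

/-!
# MP_b9166b_al, KSS version 2: linear covers
-/

set_option autoImplicit false

namespace Pool.Agent.Lib.MP_b9166b_al.Ks2

variable {G : Type} [Group G]

/-- Internal form of the covers with factors SL_n(F): a projective representation of H; the elements of perfect subgroups of GL(V)
which commute with `a x` are, up to scalars, images of elements of H commuting with x. -/
structure LCov (x : G) (S : Finset G) where
  H : Subgroup G
  fin : Finite H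
  hx : x ∈ H
  hS : ∀ s ∈ S, s ∈ H
  F : Type
  fld : Field F
  finF : Finite F
  V : Type
  grp : AddCommGroup V
  mod : Module F V
  fd : FiniteDimensional F V
  a : G → (V →ₗ[F] V)ˣ
  mul : ∀ g ∈ H, ∀ h ∈ H, ∃ c : F, c ≠ 0 ∧ (a (g * h)).val = c • ((a g).val * (a h).val)
  sep : ∀ s ∈ S, s ≠ 1 → ∀ c : F, (a s).val ≠ c • 1
  lift : ∀ D : Subgroup (V →ₗ[F] V)ˣ, ⁅D, D⁆ = D → (∀ u ∈ D, Commute u (a x)) → ∀ u ∈ D,
    ∃ h ∈ H, Commute h x ∧ ∃ c : F, c ≠ 0 ∧ (a h).val = c • u.val

attribute [instance] LCov.fin LCov.fld LCov.finF LCov.grp LCov.mod LCov.fd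

end Pool.Agent.Lib.MP_b9166b_al.Ks2
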