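import Pool.Agent.Lib.MP_b9166b_al.Ks2.Defs

/-!
# Basic facts about LCov
-/

set_option autoImplicit false

namespace Pool.Agent.Lib.MP_b9166b_al.Ks2

open scoped commutatorElement

section pr

variable {F A : Type} [Field F] [Ring A] [Algebra F A]

/-- Equality up to a scalar. -/
def lcPr (F : Type) {A : Type} [Field F] [Ring A] [Algebra F A] (u v : A) : Prop :=
  ∃ e : F, e ≠ 0 ∧ u = e • v

theorem lcPr.refl (u : A) : lcPr F u u := ⟨1, one_ne_zero, (one_smul _ _).symm⟩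

theorem lcPr.symm {u v : A} (h : lcPr F u v) : lcPr F v u := by
  obtain ⟨e, he, h⟩ := h
  exact ⟨e⁻¹, inv_ne_zero he, by rw [h, smul_smul, inv_mul_cancel₀ he, one_smul]⟩

theorem lcPr.trans {u v w : A} (h : lcPr F u v) (h' : lcPr F v w) : lcPr F u w := by
  obtain ⟨e, he, h⟩ := h
  obtain ⟨e', he', h'⟩ := h'
  exact ⟨e * e', mul_ne_zero he he', by rw [h, h', smul_smul]⟩

theorem lcPr.mul {u v u' v' : A} (h : lcPr F u v) (h' : lcPr F u' v') :
    lcPr F (u * u') (v * v') := by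
  obtain ⟨e, he, h⟩ := h
  obtain ⟨e', he', h'⟩ := h'
  exact ⟨e * e', mul_ne_zero he he', by rw [h, h', smul_mul_smul_comm]⟩

/-- If `u v` is a scalar multiple of `1` then `v` is a scalar multiple of `u⁻¹`. -/
theorem lcPr.inv {u : Aˣ} {v : A} (h : lcPr F (u.val * v) 1) : lcPr F v (u⁻¹).val := by
  have h1 := (lcPr.refl (F := F) (u⁻¹).val).mul h
  rw [← mul_assoc, Units.inv_mul, one_mul, mul_one] at h1
  exact h1

theorem lcPr.inv_mul_comm {u : Aˣ} {x : A} {e : F} (he : e ≠ 0)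
    (h : u.val * x = e • (x * u.val)) : (u⁻¹).val * x = e⁻¹ • (x * (u⁻¹).val) := by
  have h1 : x * (u⁻¹).val = e • ((u⁻¹).val * x) := by
    calc x * (u⁻¹).val = (u⁻¹).val * (u.val * x) * (u⁻¹).val := by
          rw [← mul_assoc, Units.inv_mul, one_mul]
      _ = e • ((u⁻¹).val * x) := by
          rw [h, mul_smul_comm, smul_mul_assoc, mul_assoc, mul_assoc, Units.mul_inv, mul_one]
  rw [h1, smul_smul, inv_mul_cancel₀ he, one_smul]

theorem lcPr_comm {a b x : Aˣ} (h1 : lcPr F (a.val * x.val) (x.val * a.val))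
    (h2 : lcPr F (b.val * x.val) (x.val * b.val)) :
    (⁅a, b⁆ : Aˣ).val * x.val = x.val * (⁅a, b⁆ : Aˣ).val := by
  obtain ⟨e, he, h1⟩ := h1
  obtain ⟨d, hd, h2⟩ := h2
  have h3 := lcPr.inv_mul_comm he h1
  have h4 := lcPr.inv_mul_comm hd h2
  rw [commutatorElement_def, Units.val_mul, Units.val_mul, Units.val_mul]
  calc a.val * b.val * (a⁻¹).val * (b⁻¹).val * x.val
      = a.val * (b.val * ((a⁻¹).val * ((b⁻¹).val * x.val))) := by simp only [mul_assoc]
    _ = a.val * (b.val * ((a⁻¹).val * (d⁻¹ • (x.val * (b⁻¹).val)))) := by rw [h4]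
    _ = d⁻¹ • (a.val * (b.val * (((a⁻¹).val * x.val) * (b⁻¹).val))) := by
        simp only [mul_smul_comm, mul_assoc]
    _ = d⁻¹ • (a.val * (b.val * ((e⁻¹ • (x.val * (a⁻¹).val)) * (b⁻¹).val))) := by rw [h3]
    _ = d⁻¹ • e⁻¹ • (a.val * ((b.val * x.val) * ((a⁻¹).val * (b⁻¹).val))) := by
        simp only [mul_smul_comm, smul_mul_assoc, mul_assoc]
    _ = d⁻¹ • e⁻¹ • (a.val * ((d • (x.val * b.val)) * ((a⁻¹).val * (b⁻¹).val))) := by rw [h2]
    _ = d⁻¹ • e⁻¹ • d • ((a.val * x.val) * (b.val * ((a⁻¹).val * (b⁻¹).val))) := by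
        simp only [mul_smul_comm, smul_mul_assoc, mul_assoc]
    _ = d⁻¹ • e⁻¹ • d • ((e • (x.val * a.val)) * (b.val * ((a⁻¹).val * (b⁻¹).val))) := by rw [h1]
    _ = (d⁻¹ * (e⁻¹ * (d * e))) • (x.val * (a.val * b.val * (a⁻¹).val * (b⁻¹).val)) := by
        simp only [smul_mul_assoc, mul_assoc, smul_smul]
    _ = x.val * (a.val * b.val * (a⁻¹).val * (b⁻¹).val) := by
        rw [show d⁻¹ * (e⁻¹ * (d * e)) = 1 by field_simp, one_smul]

end pr

variable {G : Type} [Group G] {x : G} {S : Finset G}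

namespace LCov

variable (c : LCov x S)

theorem pr_mul {g h : G} (hg : g ∈ c.H) (hh : h ∈ c.H) :
    lcPr c.F (c.a (g * h)).val ((c.a g).val * (c.a h).val) := c.mul g hg h hh

theorem pr_one : lcPr c.F (c.a 1).val 1 := by
  have h := (c.pr_mul c.H.one_mem c.H.one_mem).symm
  rw [mul_one] at h
  have h1 := h.mul (lcPr.refl (F := c.F) (c.a 1)⁻¹.val)
  rw [mul_assoc, Units.mul_inv, mul_one] at h1
  exact h1

theorem a_one : ∃ e : c.F, e ≠ 0 ∧ (c.a 1).val = e • 1 := c.pr_one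

theorem pr_inv {g : G} (hg : g ∈ c.H) : lcPr c.F (c.a g⁻¹).val (c.a g)⁻¹.val := by
  apply lcPr.inv
  have h := c.pr_mul hg (c.H.inv_mem hg)
  rw [mul_inv_cancel] at h
  exact h.symm.trans c.pr_one

theorem a_inv {g : G} (hg : g ∈ c.H) : ∃ e : c.F, e ≠ 0 ∧ (c.a g⁻¹).val = e • (c.a g)⁻¹.val :=
  c.pr_inv hg

/-- a of a commutator is the commutator up to a scalar -/
theorem a_comm {g h : G} (hg : g ∈ c.H) (hh : h ∈ c.H) :
    ∃ e : c.F, e ≠ 0 ∧ (c.a ⁅g, h⁆).val = e • (⁅c.a g, c.a h⁆ : (c.V →ₗ[c.F] c.V)ˣ).val := by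
  have h1 := c.pr_mul (c.H.mul_mem (c.H.mul_mem hg hh) (c.H.inv_mem hg)) (c.H.inv_mem hh)
  have h2 := c.pr_mul (c.H.mul_mem hg hh) (c.H.inv_mem hg)
  have h3 := c.pr_mul hg hh
  have h4 := h1.trans ((h2.trans (h3.mul (c.pr_inv hg))).mul (c.pr_inv hh))
  rw [commutatorElement_def, commutatorElement_def, Units.val_mul, Units.val_mul, Units.val_mul]
  exact h4

theorem a_pow {g : G} (hg : g ∈ c.H) (k : ℕ) :
    ∃ e : c.F, e ≠ 0 ∧ (c.a g).val ^ k = e • (c.a (g ^ k)).val := by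
  show lcPr c.F ((c.a g).val ^ k) (c.a (g ^ k)).val
  induction k with
  | zero =>
    rw [pow_zero, pow_zero]
    exact c.pr_one.symm
  | succ k ih =>
    rw [pow_succ, pow_succ]
    exact (ih.mul (lcPr.refl _)).trans (c.pr_mul (c.H.pow_mem hg k) hg).symm

/-- a_x^m is a scalar, m the order of x -/
theorem a_x_pow : ∃ e : c.F, e ≠ 0 ∧ (c.a x).val ^ orderOf x = e • 1 := by
  have h : lcPr c.F ((c.a x).val ^ orderOf x) (c.a (x ^ orderOf x)).val := c.a_pow c.hx _
  rw [pow_orderOf_eq_one] at h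
  exact h.trans c.pr_one

/-- Commutators of elements of the centralizer of x commute exactly with a_x: if g x = x g then
a_g a_x = μ a_x a_g with a scalar μ. -/
theorem commute_comm {g h : G} (hg : g ∈ c.H) (hh : h ∈ c.H) (hgx : Commute g x)
    (hhx : Commute h x) : Commute (c.a ⁅g, h⁆) (c.a x) := by
  have key : ∀ {g : G}, g ∈ c.H → Commute g x →
      lcPr c.F ((c.a g).val * (c.a x).val) ((c.a x).val * (c.a g).val) := fun {g} hg hgx => by
    have h1 := c.pr_mul hg c.hx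
    have h2 := c.pr_mul c.hx hg
    rw [hgx.eq] at h1
    exact h1.symm.trans h2
  obtain ⟨e, he, h1⟩ := c.a_comm hg hh
  have h2 := lcPr_comm (key hg hgx) (key hh hhx)
  refine Units.ext ?_
  rw [Units.val_mul, Units.val_mul, h1, smul_mul_assoc, mul_smul_comm, h2]

/-- A cover of a larger set is a cover of the smaller one. -/
def mono {S' : Finset G} (h : S' ⊆ S) : LCov x S' :=
  { c with
    hS := fun s hs => c.hS s (h hs)
    sep := fun s hs => c.sep s (h hs) }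

theorem mono_V {S' : Finset G} (h : S' ⊆ S) :
    Module.finrank (c.mono h).F (c.mono h).V = Module.finrank c.F c.V := rfl

end LCov

end Pool.Agent.Lib.MP_b9166b_al.Ks2
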