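import Pool.Agent.Lib.MP_b9166b_al.Ks2.LCov
import Pool.Agent.Lib.MP_b9166b_al.Ks.Ultra

/-!
# From covers to a finitary representation
-/

set_option autoImplicit false

namespace Pool.Agent.Lib.MP_b9166b_al.Ks2

open Ks

open Filter

section Rank

variable {F V : Type} [Field F] [AddCommGroup V] [Module F V]

theorem range_sub_one (f : V →ₗ[F] V) : LinearMap.range (f - 1) = LinearMap.range (1 - f) := by
  rw [← LinearMap.range_neg (1 - f), neg_sub]

theorem deg_iff [FiniteDimensional F V] (f : V →ₗ[F] V) (d : ℕ) :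
    Deg f d ↔ Module.finrank F (LinearMap.range (f - 1)) ≤ d := by
  rw [range_sub_one]
  exact ⟨fun h => h.2, fun h => ⟨inferInstance, h⟩⟩

/-- a scalar multiple of a unit -/
def sunit (e : F) (he : e ≠ 0) (u : (V →ₗ[F] V)ˣ) : (V →ₗ[F] V)ˣ where
  val := e • u.val
  inv := e⁻¹ • (u⁻¹).val
  val_inv := by
    rw [smul_mul_smul_comm, Units.mul_inv, mul_inv_cancel₀ he, one_smul]
  inv_val := by
    rw [smul_mul_smul_comm, Units.inv_mul, inv_mul_cancel₀ he, one_smul]

theorem sunit_val (e : F) (he : e ≠ 0) (u : (V →ₗ[F] V)ˣ) : (sunit e he u).val = e • u.val := rfl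

theorem sunit_inv_val (e : F) (he : e ≠ 0) (u : (V →ₗ[F] V)ˣ) :
    ((sunit e he u)⁻¹).val = e⁻¹ • (u⁻¹).val := rfl

/-- an endomorphism commuting with all endomorphisms is a scalar -/
theorem scalar_of_commute (f : V →ₗ[F] V) (h : ∀ g : V →ₗ[F] V, f * g = g * f) :
    ∃ e : F, f = e • 1 := by
  have h1 : f ∈ Set.center (Module.End F V) := by
    rw [Semigroup.mem_center_iff]
    intro g
    exact (h g).symm
  obtain ⟨e, he, h2⟩ := Module.End.mem_center_iff.1 h1
  refine ⟨e, ?_⟩
  rw [h2]
  ext v
  rfl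

/-- conjugation on End V -/
def conjU : (V →ₗ[F] V)ˣ →* ((V →ₗ[F] V) →ₗ[F] (V →ₗ[F] V))ˣ :=
  (MonoidHom.toHomUnits
    { toFun := fun u => LinearMap.mulLeft F u.val ∘ₗ LinearMap.mulRight F (u⁻¹).val
      map_one' := by
        ext f v
        simp
      map_mul' := fun u w => by
        ext f v
        simp [mul_assoc] } :
    (V →ₗ[F] V)ˣ →* (Module.End F (V →ₗ[F] V))ˣ)

theorem conjU_apply (u : (V →ₗ[F] V)ˣ) (f : V →ₗ[F] V) :
    (conjU u).val f = u.val * (f * (u⁻¹).val) := rfl

end Rank

variable {G : Type} [Group G] {x : G}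

/-- Bounded dimensions: the conjugation action on End V is a linear action of bounded degree. -/
theorem finLin_of_bounded (N : ℕ) (h : ∀ S : Finset G, ∃ c : LCov x S,
    Module.finrank c.F c.V ≤ N) : FinLin G := by
  classical
  choose c hc using h
  refine finLin_of_linear_family (I := Finset G) atTop (fun i => (c i).F)
    (fun i => (c i).V →ₗ[(c i).F] (c i).V) (fun i g => conjU ((c i).a g)) ?_ ?_ ?_
  · intro g h
    filter_upwards [eventually_ge_atTop ({g, h} : Finset G)] with i hi
    have hg : g ∈ (c i).H := (c i).hS g (hi (by simp))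
    have hh : h ∈ (c i).H := (c i).hS h (hi (by simp))
    obtain ⟨e, he, h1⟩ := (c i).mul g hg h hh
    rw [← map_mul]
    have h2 : (c i).a (g * h) = sunit e he ((c i).a g * (c i).a h) := by
      apply Units.ext
      rw [h1, sunit_val, Units.val_mul]
    rw [h2]
    apply Units.ext
    ext1 f
    rw [conjU_apply, conjU_apply, sunit_val, sunit_inv_val]
    rw [mul_smul_comm, smul_mul_assoc, mul_smul_comm, smul_smul, mul_inv_cancel₀ he, one_smul]
  · intro g
    refine ⟨N * N, Eventually.of_forall fun i => ?_⟩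
    refine (Submodule.finrank_le _).trans ?_
    rw [Module.finrank_linearMap]
    exact Nat.mul_le_mul (hc i) (hc i)
  · intro g hg
    filter_upwards [eventually_ge_atTop ({g} : Finset G)] with i hi h1
    have hgi : g ∈ i := hi (by simp)
    obtain ⟨e, he⟩ := scalar_of_commute ((c i).a g).val (fun f => by
      have h2 : (conjU ((c i).a g)).val f = f := by rw [h1]; rfl
      rw [conjU_apply] at h2
      calc ((c i).a g).val * f = ((c i).a g).val * (f * (((c i).a g)⁻¹).val) * ((c i).a g).val := by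
            rw [mul_assoc, mul_assoc, Units.inv_mul, mul_one]
        _ = f * ((c i).a g).val := by rw [h2])
    exact (c i).sep g hgi hg e he

/-- Unbounded dimensions. For i = (S, N) choose c_i with dimension ≥ N. The g such that for some B
eventually some multiple of a_i g differs from 1 by rank ≤ B form a normal subgroup, which contains y; so all
g; the multiples are unique for large dimension, so they are multiplicative; finLin_of_linear_family. -/
theorem finLin_of_unbounded (hs : IsSimpleGroup G) (h : ∀ (S : Finset G) (N : ℕ), ∃ c : LCov x S,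
    N ≤ Module.finrank c.F c.V)
    (hy : ∃ (y : G) (B : ℕ) (S₀ : Finset G), y ≠ 1 ∧ ∀ (S : Finset G), S₀ ⊆ S → ∀ c : LCov x S,
      ∃ e : c.F, e ≠ 0 ∧
        Module.finrank c.F (LinearMap.range (e • (c.a y).val - 1)) ≤ B) : FinLin G := by
  classical
  choose c0 hc0 using h
  set c : ∀ i : Finset G × ℕ, LCov x i.1 := fun i => c0 i.1 i.2 with hcdef
  have hc : ∀ i : Finset G × ℕ, i.2 ≤ Module.finrank (c i).F (c i).V := fun i => hc0 i.1 i.2
  -- elements are eventually in H
  have hmem : ∀ g : G, ∀ᶠ i : Finset G × ℕ in atTop, g ∈ i.1 := by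
    intro g
    filter_upwards [eventually_ge_atTop (({g}, 0) : Finset G × ℕ)] with i hi
    exact hi.1 (by simp)
  have hdim : ∀ B : ℕ, ∀ᶠ i : Finset G × ℕ in atTop, B ≤ Module.finrank (c i).F (c i).V := by
    intro B
    filter_upwards [eventually_ge_atTop ((∅, B) : Finset G × ℕ)] with i hi
    exact hi.2.trans (hc i)
  -- the bounded elements
  set N : Subgroup G :=
    { carrier := {g | ∃ B : ℕ, ∀ᶠ i : Finset G × ℕ in atTop,
        ∃ e : (c i).F, e ≠ 0 ∧ Deg (e • ((c i).a g).val) B}
      one_mem' := by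
        refine ⟨0, Eventually.of_forall fun i => ?_⟩
        obtain ⟨e, he, h1⟩ := (c i).a_one
        refine ⟨e⁻¹, inv_ne_zero he, ?_⟩
        rw [h1, smul_smul, inv_mul_cancel₀ he, one_smul, deg_iff, sub_self, LinearMap.range_zero,
          finrank_bot]
      mul_mem' := by
        rintro g h ⟨B, hB⟩ ⟨B', hB'⟩
        refine ⟨B + B', ?_⟩
        filter_upwards [hB, hB', hmem g, hmem h] with i hi hi' hg hh
        obtain ⟨e, he, h1⟩ := hi
        obtain ⟨e', he', h2⟩ := hi'
        obtain ⟨t, ht, h3⟩ := (c i).mul g ((c i).hS g hg) h ((c i).hS h hh)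
        refine ⟨e * e' * t⁻¹, by positivity, ?_⟩
        have h4 : (e * e' * t⁻¹) • ((c i).a (g * h)).val =
            (e • ((c i).a g).val) * (e' • ((c i).a h).val) := by
          rw [h3, smul_smul, mul_assoc (e * e'), inv_mul_cancel₀ ht, mul_one, smul_mul_smul_comm]
        rw [h4]
        exact h1.mul h2
      inv_mem' := by
        rintro g ⟨B, hB⟩
        refine ⟨B, ?_⟩
        filter_upwards [hB, hmem g] with i hi hg
        obtain ⟨e, he, h1⟩ := hi
        obtain ⟨t, ht, h2⟩ := (c i).a_inv ((c i).hS g hg)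
        refine ⟨e⁻¹ * t⁻¹, by positivity, ?_⟩
        have h3 : (e⁻¹ * t⁻¹) • ((c i).a g⁻¹).val = ((sunit e he ((c i).a g))⁻¹).val := by
          rw [h2, smul_smul, mul_assoc, inv_mul_cancel₀ ht, mul_one, sunit_inv_val]
        rw [h3]
        exact Deg.inv (f := sunit e he ((c i).a g)) h1 } with hN
  have hNn : N.Normal := by
    constructor
    rintro g ⟨B, hB⟩ h
    refine ⟨B, ?_⟩
    filter_upwards [hB, hmem g, hmem h] with i hi hg hh
    obtain ⟨e, he, h1⟩ := hi
    have hgH := (c i).hS g hg
    have hhH := (c i).hS h hh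
    obtain ⟨t, ht, h2⟩ := (c i).mul h hhH g hgH
    obtain ⟨t', ht', h3⟩ := (c i).mul (h * g) (mul_mem hhH hgH) h⁻¹ (inv_mem hhH)
    obtain ⟨t'', ht'', h4⟩ := (c i).a_inv hhH
    refine ⟨e * (t' * (t * t''))⁻¹, by positivity, ?_⟩
    have h5 : (e * (t' * (t * t''))⁻¹) • ((c i).a (h * g * h⁻¹)).val =
        ((c i).a h).val * (e • ((c i).a g).val) * (((c i).a h)⁻¹).val := by
      have h6 : e * (t' * (t * t''))⁻¹ * t' * (t * t'') = e := by
        rw [mul_assoc _ t']
        exact inv_mul_cancel_right₀ (by positivity) e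
      rw [h3, h2, h4, smul_mul_smul_comm, smul_smul, smul_smul, h6, mul_smul_comm,
        smul_mul_assoc]
    rw [h5]
    exact h1.conj _
  obtain ⟨y, By, S₀, hy1, hy2⟩ := hy
  have hyN : y ∈ N := by
    refine ⟨By, ?_⟩
    filter_upwards [eventually_ge_atTop ((S₀, 0) : Finset G × ℕ)] with i hi
    obtain ⟨e, he, h1⟩ := hy2 i.1 hi.1 (c i)
    exact ⟨e, he, (deg_iff _ _).2 h1⟩
  have hNtop : N = ⊤ := by
    rcases hNn.eq_bot_or_eq_top with h1 | h1
    · rw [h1, Subgroup.mem_bot] at hyN
      exact absurd hyN hy1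
    · exact h1
  have hall : ∀ g : G, ∃ B : ℕ, ∀ᶠ i : Finset G × ℕ in atTop,
      ∃ e : (c i).F, e ≠ 0 ∧ Deg (e • ((c i).a g).val) B := by
    intro g
    have : g ∈ N := by rw [hNtop]; trivial
    exact this
  choose B hB using hall
  set a : ∀ i : Finset G × ℕ, G → ((c i).V →ₗ[(c i).F] (c i).V)ˣ := fun i g =>
    if h : ∃ e : (c i).F, e ≠ 0 ∧ Deg (e • ((c i).a g).val) (B g) then
      sunit h.choose h.choose_spec.1 ((c i).a g) else 1 with ha
  have ha1 : ∀ g, ∀ᶠ i : Finset G × ℕ in atTop, ∃ e : (c i).F, e ≠ 0 ∧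
      (a i g).val = e • ((c i).a g).val ∧ Deg (a i g).val (B g) := by
    intro g
    filter_upwards [hB g] with i hi
    refine ⟨hi.choose, hi.choose_spec.1, ?_, ?_⟩
    · rw [ha]
      simp only
      rw [dif_pos hi, sunit_val]
    · rw [ha]
      simp only
      rw [dif_pos hi, sunit_val]
      exact hi.choose_spec.2
  refine finLin_of_linear_family (I := Finset G × ℕ) atTop (fun i => (c i).F)
    (fun i => (c i).V) a ?_ ?_ ?_
  · intro g h
    filter_upwards [ha1 g, ha1 h, ha1 (g * h), hmem g, hmem h, hdim (B g + B h + B (g * h) + 1)]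
      with i h1 h2 h3 hg hh hd
    obtain ⟨e1, he1, h1a, h1b⟩ := h1
    obtain ⟨e2, he2, h2a, h2b⟩ := h2
    obtain ⟨e3, he3, h3a, h3b⟩ := h3
    obtain ⟨t, ht, h4⟩ := (c i).mul g ((c i).hS g hg) h ((c i).hS h hh)
    set s : (c i).F := e3 * t * (e1 * e2)⁻¹ with hsdef
    have h5 : (a i (g * h)).val = s • ((a i g).val * (a i h).val) := by
      rw [h1a, h2a, h3a, h4, smul_mul_smul_comm, smul_smul, smul_smul, hsdef, mul_assoc (e3 * t),
        inv_mul_cancel₀ (by positivity), mul_one]
    by_cases hs1 : s = 1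
    · apply Units.ext
      rw [h5, hs1, one_smul, Units.val_mul]
    · exfalso
      have h6 := h1b.mul h2b
      rw [deg_iff] at h6 h3b
      set P := (a i g).val * (a i h).val with hP
      have h7 : (⊤ : Submodule (c i).F (c i).V) ≤
          LinearMap.range (P - 1) ⊔ LinearMap.range ((a i (g * h)).val - 1) := by
        intro v _
        have h8 : v = (P - 1) (-(s * (s - 1)⁻¹) • v) +
            ((a i (g * h)).val - 1) ((s - 1)⁻¹ • v) := by
          rw [h5]
          simp only [LinearMap.sub_apply, map_smul, LinearMap.smul_apply, Module.End.one_apply]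
          have h9 : (s - 1) * (s - 1)⁻¹ = 1 := mul_inv_cancel₀ (sub_ne_zero.2 hs1)
          generalize (s - 1)⁻¹ = r at h9 ⊢
          have h10 : v = ((s - 1) * r) • v := by rw [h9, one_smul]
          generalize P v = w
          conv_lhs => rw [h10]
          module
        rw [h8]
        exact Submodule.add_mem_sup (LinearMap.mem_range_self _ _) (LinearMap.mem_range_self _ _)
      have h11 := Submodule.finrank_mono h7
      rw [finrank_top] at h11
      have h12 := Submodule.finrank_add_le_finrank_add_finrank (LinearMap.range (P - 1))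
        (LinearMap.range ((a i (g * h)).val - 1))
      omega
  · intro g
    refine ⟨B g, ?_⟩
    filter_upwards [ha1 g] with i hi
    obtain ⟨e, he, h1, h2⟩ := hi
    exact (deg_iff _ _).1 h2
  · intro g hg
    filter_upwards [ha1 g, hmem g] with i hi hgi h1
    obtain ⟨e, he, h2, h3⟩ := hi
    rw [h1, Units.val_one] at h2
    refine (c i).sep g hgi hg e⁻¹ ?_
    rw [h2, smul_smul, inv_mul_cancel₀ he, one_smul]

end Pool.Agent.Lib.MP_b9166b_al.Ks2
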