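import Pool.Agent.Lib.MP_b9166b_al.Ks2.WordsB
import Pool.Agent.Lib.MP_b9166b_al.Ks2.LinMainA

/-!
# The theorem for linear covers, version 2
-/

set_option autoImplicit false

namespace Pool.Agent.Lib.MP_b9166b_al.Ks2

open Ks

variable {G : Type} [Group G] {x : G}

theorem finLin_of_lcov (hs : IsSimpleGroup G) (hx : 0 < orderOf x)
    (h : ∀ S : Finset G, Nonempty (LCov x S))
    (hc : FinLin (Subgroup.centralizer ({x} : Set G))) : FinLin G := by
  by_cases hN : ∀ (S : Finset G) (N : ℕ), ∃ c : LCov x S, N ≤ Module.finrank c.F c.V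
  · obtain ⟨K, _, VK, _, _, _, ρ, hρ, hfin⟩ := hc
    obtain ⟨c, hcV⟩ := hN ∅ (orderOf x * (orderOf x * orderOf x) * (orderOf x * 4) + 1)
    have hJ : ∃ J : ℕ, orderOf x * (orderOf x * orderOf x) ≤ 2 ^ J :=
      ⟨_, (Nat.lt_two_pow_self).le⟩
    obtain ⟨J, hJ⟩ := hJ
    obtain ⟨y, hy, hy1⟩ := exists_der c hx hcV (J + 2)
    obtain ⟨B, S₀, hB⟩ := exists_bounded hx ρ hρ hfin hJ hy
    exact finLin_of_unbounded hs hN ⟨y, B, S₀, hy1, hB⟩
  · push Not at hN
    obtain ⟨S₀, N, hN⟩ := hN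
    refine finLin_of_bounded (x := x) N fun S => ?_
    classical
    obtain ⟨c⟩ := h (S ∪ S₀)
    exact ⟨c.mono Finset.subset_union_left, (hN (c.mono Finset.subset_union_right)).le⟩

end Pool.Agent.Lib.MP_b9166b_al.Ks2
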