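import Mathlib

/-!
# Nilpotent maps: an adapted basis

t^q = 0 on a finite dimensional space W. Use Module.torsion_by_prime_power_decomposition for the
E[X]-module W (Module.AEval' t) and p = X: W ≅ ⨁ i, E[X] / (X^(k i)); basis t^j e_i, j < k i. (Drop the i with
k i = 0 or keep them, they contribute nothing.)
-/

set_option autoImplicit false

namespace Pool.Agent.Lib.MP_b9166b_al.Ks2

open Polynomial

/-- The basis of `E[X] / (X ^ k)`. -/
theorem nil_quot_basis (E : Type) [Field E] (k : ℕ) :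
    ∃ b : Module.Basis (Fin k) E (E[X] ⧸ Submodule.span E[X] {(X : E[X]) ^ k}), ∀ j : Fin k,
      b j = Submodule.Quotient.mk ((X : E[X]) ^ (j : ℕ)) := by
  have hmem : ∀ P : E[X], (Submodule.Quotient.mk P : E[X] ⧸ Submodule.span E[X] {(X : E[X]) ^ k})
      = 0 ↔ ∀ i < k, P.coeff i = 0 := by
    intro P
    rw [Submodule.Quotient.mk_eq_zero, ← X_pow_dvd_iff, Submodule.mem_span_singleton]
    constructor
    · rintro ⟨a, rfl⟩
      exact ⟨a, by rw [smul_eq_mul, mul_comm]⟩
    · rintro ⟨a, rfl⟩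
      exact ⟨a, by rw [smul_eq_mul, mul_comm]⟩
  have hsum : ∀ c : Fin k → E, ∑ j : Fin k, c j •
      (Submodule.Quotient.mk ((X : E[X]) ^ (j : ℕ)) :
        E[X] ⧸ Submodule.span E[X] {(X : E[X]) ^ k}) =
      Submodule.Quotient.mk (∑ j : Fin k, c j • (X : E[X]) ^ (j : ℕ)) := by
    intro c
    have h1 := map_sum ((Submodule.mkQ (Submodule.span E[X] {(X : E[X]) ^ k})).restrictScalars E)
      (fun j : Fin k => c j • (X : E[X]) ^ (j : ℕ)) Finset.univ
    refine Eq.trans ?_ h1.symm
    refine Finset.sum_congr rfl fun j _ => ?_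
    rw [map_smul]
    rfl
  have hcoeff : ∀ (c : Fin k → E) (i : Fin k),
      (∑ j : Fin k, c j • (X : E[X]) ^ (j : ℕ)).coeff i = c i := by
    intro c i
    rw [finsetSum_coeff, Finset.sum_eq_single i]
    · rw [coeff_smul, coeff_X_pow, if_pos rfl, smul_eq_mul, mul_one]
    · intro j _ hj
      rw [coeff_smul, coeff_X_pow, if_neg, smul_zero]
      intro h
      exact hj (Fin.ext h.symm)
    · intro h
      exact absurd (Finset.mem_univ i) h
  have hli : LinearIndependent E (fun j : Fin k =>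
      (Submodule.Quotient.mk ((X : E[X]) ^ (j : ℕ)) :
        E[X] ⧸ Submodule.span E[X] {(X : E[X]) ^ k})) := by
    rw [Fintype.linearIndependent_iff]
    intro c hc i
    rw [hsum, hmem] at hc
    rw [← hcoeff c i]
    exact hc i i.2
  refine ⟨Module.Basis.mk hli ?_, fun j => Module.Basis.mk_apply _ _ j⟩
  rintro x -
  obtain ⟨P, rfl⟩ := Submodule.Quotient.mk_surjective _ x
  have h1 : (Submodule.Quotient.mk P : E[X] ⧸ Submodule.span E[X] {(X : E[X]) ^ k}) =
      ∑ j : Fin k, P.coeff j • (Submodule.Quotient.mk ((X : E[X]) ^ (j : ℕ)) :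
        E[X] ⧸ Submodule.span E[X] {(X : E[X]) ^ k}) := by
    rw [hsum, ← sub_eq_zero, ← Submodule.Quotient.mk_sub, hmem]
    intro i hi
    rw [coeff_sub, hcoeff (fun j => P.coeff j) ⟨i, hi⟩, sub_self]
  rw [h1]
  refine Submodule.sum_mem _ fun j _ => Submodule.smul_mem _ _ (Submodule.subset_span ⟨j, rfl⟩)

theorem nil_dbasis {ι : Type} [DecidableEq ι] {R : Type} [Semiring R] {M : ι → Type}
    [∀ i, AddCommMonoid (M i)] [∀ i, Module R (M i)] {η : ι → Type}
    (b : ∀ i, Module.Basis (η i) R (M i)) (i : ι) (j : η i) :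
    DFinsupp.basis b ⟨i, j⟩ = DFinsupp.single i (b i j) := by
  apply (DFinsupp.basis b).repr.injective
  rw [Module.Basis.repr_self]
  change _ = (sigmaFinsuppLequivDFinsupp R).symm
    (DFinsupp.mapRange.linearEquiv (fun i => (b i).repr) (DFinsupp.single i (b i j)))
  rw [LinearEquiv.eq_symm_apply]
  change sigmaFinsuppEquivDFinsupp (Finsupp.single ⟨i, j⟩ (1 : R)) = _
  rw [sigmaFinsuppEquivDFinsupp_single]
  change _ = DFinsupp.mapRange (fun i => (b i).repr) (fun i => map_zero _)
    (DFinsupp.single i (b i j))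
  rw [DFinsupp.mapRange_single, Module.Basis.repr_self]

open DirectSum in
theorem exists_adapted_basis {E W : Type} [Field E] [AddCommGroup W] [Module E W]
    [FiniteDimensional E W] (t : W →ₗ[E] W) {q : ℕ} (ht : t ^ q = 0) :
    ∃ (d : ℕ) (k : Fin d → ℕ) (b : Module.Basis (Σ i : Fin d, Fin (k i)) E W),
      (∀ i, k i ≤ q) ∧ ∀ (i : Fin d) (j : Fin (k i)),
        t (b ⟨i, j⟩) = if h : j.val + 1 < k i then b ⟨i, ⟨j.val + 1, h⟩⟩ else 0 := by
  classical
  have hXq : ∀ x : Module.AEval' t, ((X : E[X]) ^ q) • x = 0 := by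
    intro x
    obtain ⟨w, rfl⟩ := (Module.AEval'.of t).surjective x
    rw [Module.AEval'.X_pow_smul_of, ht]
    exact map_zero _
  have htor : Module.IsTorsion' (Module.AEval' t) (Submonoid.powers (X : E[X])) := by
    intro x
    exact ⟨⟨X ^ q, ⟨q, rfl⟩⟩, hXq x⟩
  obtain ⟨d, k, ⟨e⟩⟩ := Module.torsion_by_prime_power_decomposition
    (R := E[X]) (M := Module.AEval' t) (p := X) Polynomial.irreducible_X htor
  choose bq hbq using fun i : Fin d => nil_quot_basis E (k i)
  let B : Module.Basis (Σ i : Fin d, Fin (k i)) E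
      (⨁ i : Fin d, E[X] ⧸ Submodule.span E[X] {(X : E[X]) ^ (k i)}) := DFinsupp.basis bq
  have hB : ∀ (i : Fin d) (j : Fin (k i)), B ⟨i, j⟩ =
      DirectSum.of (fun i : Fin d => E[X] ⧸ Submodule.span E[X] {(X : E[X]) ^ (k i)}) i
        (Submodule.Quotient.mk ((X : E[X]) ^ (j : ℕ))) := by
    intro i j
    rw [← hbq i j]
    exact nil_dbasis bq i j
  let b : Module.Basis (Σ i : Fin d, Fin (k i)) E W :=
    B.map ((e.restrictScalars E).symm.trans (Module.AEval'.of t).symm)
  have hb : ∀ x, b x = (Module.AEval'.of t).symm (e.symm (B x)) := fun x => rfl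
  have hX : ∀ (i : Fin d) (n : ℕ), (X : E[X]) • DirectSum.of (fun i : Fin d => E[X] ⧸
      Submodule.span E[X] {(X : E[X]) ^ (k i)}) i (Submodule.Quotient.mk ((X : E[X]) ^ n)) =
      DirectSum.of (fun i : Fin d => E[X] ⧸ Submodule.span E[X] {(X : E[X]) ^ (k i)}) i
        (Submodule.Quotient.mk ((X : E[X]) ^ (n + 1))) := by
    intro i n
    rw [pow_succ', ← smul_eq_mul, Submodule.Quotient.mk_smul]
    exact (DirectSum.of_smul (R := E[X]) (M := fun i : Fin d => E[X] ⧸ Submodule.span E[X]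
      {(X : E[X]) ^ (k i)}) i _ _).symm
  refine ⟨d, k, b, ?_, ?_⟩
  · intro i
    by_contra hlt
    push Not at hlt
    have h1 := hXq (e.symm (DirectSum.of (fun i : Fin d => E[X] ⧸ Submodule.span E[X]
      {(X : E[X]) ^ (k i)}) i (Submodule.Quotient.mk 1)))
    rw [← map_smul, LinearEquiv.map_eq_zero_iff, ← DirectSum.of_smul (R := E[X])
      (M := fun i : Fin d => E[X] ⧸ Submodule.span E[X] {(X : E[X]) ^ (k i)}),
      ← map_zero (DirectSum.of (fun i : Fin d => E[X] ⧸ Submodule.span E[X]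
      {(X : E[X]) ^ (k i)}) i)] at h1
    have h2 := DirectSum.of_injective i h1
    rw [← Submodule.Quotient.mk_smul, Submodule.Quotient.mk_eq_zero,
      Submodule.mem_span_singleton, smul_eq_mul, mul_one] at h2
    obtain ⟨a, ha⟩ := h2
    have h3 : (X : E[X]) ^ (k i) ∣ X ^ q := ⟨a, by rw [← ha, smul_eq_mul, mul_comm]⟩
    rw [X_pow_dvd_iff] at h3
    have h4 := h3 q hlt
    rw [coeff_X_pow, if_pos rfl] at h4
    exact one_ne_zero h4
  · intro i j
    rw [hb, ← Module.AEval'.of_symm_X_smul, ← map_smul e.symm, hB, hX]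
    split_ifs with h
    · rw [hb, hB]
    · have h1 : (Submodule.Quotient.mk ((X : E[X]) ^ ((j : ℕ) + 1)) :
          E[X] ⧸ Submodule.span E[X] {(X : E[X]) ^ (k i)}) = 0 := by
        have h2 : (j : ℕ) + 1 = k i := by
          have := j.2
          omega
        rw [Submodule.Quotient.mk_eq_zero, h2]
        exact Submodule.mem_span_singleton_self _
      rw [h1, map_zero, map_zero, map_zero]

end Pool.Agent.Lib.MP_b9166b_al.Ks2
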