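import Pool.Agent.Lib.MP_b9166b_al.Ks2.Nil

/-!
# Nilpotent maps: a chain of fully invariant subspaces with the lifting property

For h = q, q - 1, .., 1 and j = 0, .., q - 1 (in this order: l = (q - h) q + j) let
D_l = ker t^(h-1) + (ker t^h ∩ range t^j), D_(q q) = 0. With the adapted basis b (i, j') = t^j' e_i:
D_l is spanned by the b (i, j') with k i - j' < h, and those with k i - j' = h and j' ≥ j; so
D_l / D_(l+1) has the basis b (i, j), k i = h + j. A unit θ of End (D_l / D_(l+1)) has a matrix M on these i;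
u (t^j' e_i) = Σ M_(i', i) t^j' e_i' for k i = h + j, u = 1 on the other basis vectors.
-/

set_option autoImplicit false

namespace Pool.Agent.Lib.MP_b9166b_al.Ks2

variable {E W : Type} [Field E] [AddCommGroup W] [Module E W]

/-- The factor `D / D'`. -/
abbrev Fac (D D' : Submodule E W) : Type := D ⧸ D'.submoduleOf D

/-- The maps of `W` induced by maps of the multiplicity space. -/
theorem nil_lift {K : Type} [AddCommGroup K] [Module E K] (t : W →ₗ[E] W) (m : ℕ)
    (a : ℕ → K →ₗ[E] W) (p : ℕ → W →ₗ[E] K)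
    (hpa : ∀ j j', j ≤ m → j' ≤ m → ∀ x, p j (a j' x) = if j = j' then x else 0)
    (hta : ∀ j x, t (a j x) = a (j + 1) x) (hak : ∀ x, a (m + 1) x = 0)
    (hpt : ∀ j, j < m → ∀ v, p (j + 1) (t v) = p j v) (hp0 : ∀ v, p 0 (t v) = 0)
    (θ : (K →ₗ[E] K)ˣ) :
    ∃ u : (W →ₗ[E] W)ˣ, Commute u.val t ∧ ∀ j ≤ m, ∀ v, p j (u.val v) = θ.val (p j v) := by
  classical
  have key : ∀ σ : K →ₗ[E] K, ∃ f : W →ₗ[E] W, ∀ v, f v = v - ∑ j ∈ Finset.range (m + 1),
      a j (p j v) + ∑ j ∈ Finset.range (m + 1), a j (σ (p j v)) := by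
    intro σ
    refine ⟨LinearMap.id - ∑ j ∈ Finset.range (m + 1), a j ∘ₗ p j +
      ∑ j ∈ Finset.range (m + 1), a j ∘ₗ σ ∘ₗ p j, fun v => ?_⟩
    simp only [LinearMap.add_apply, LinearMap.sub_apply, LinearMap.id_apply, LinearMap.sum_apply,
      LinearMap.comp_apply]
  choose Φ hΦ using key
  have hp : ∀ σ j, j ≤ m → ∀ v, p j (Φ σ v) = σ (p j v) := by
    intro σ j hj v
    have h1 : ∀ g : ℕ → K, p j (∑ j' ∈ Finset.range (m + 1), a j' (g j')) = g j := by
      intro g
      rw [map_sum, Finset.sum_eq_single j]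
      · rw [hpa j j hj hj, if_pos rfl]
      · intro j' hj' hne
        rw [hpa j j' hj (by have := Finset.mem_range.1 hj'; omega), if_neg (Ne.symm hne)]
      · intro h
        exact absurd (Finset.mem_range.2 (by omega)) h
    rw [hΦ, map_add, map_sub, h1 (fun j' => p j' v), h1 (fun j' => σ (p j' v)), sub_self, zero_add]
  have hmul : ∀ σ τ v, Φ σ (Φ τ v) = Φ (σ ∘ₗ τ) v := by
    intro σ τ v
    have h1 : ∀ g : K →ₗ[E] K, ∑ j ∈ Finset.range (m + 1), a j (g (p j (Φ τ v))) =
        ∑ j ∈ Finset.range (m + 1), a j (g (τ (p j v))) := by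
      intro g
      refine Finset.sum_congr rfl fun j hj => ?_
      rw [hp τ j (by have := Finset.mem_range.1 hj; omega)]
    have h2 := h1 LinearMap.id
    simp only [LinearMap.id_apply] at h2
    rw [hΦ σ (Φ τ v), h2, h1 σ, hΦ τ v, hΦ (σ ∘ₗ τ) v]
    simp only [LinearMap.comp_apply]
    abel
  have hone : ∀ v, Φ LinearMap.id v = v := by
    intro v
    rw [hΦ]
    simp only [LinearMap.id_apply]
    abel
  have hcomm : ∀ σ v, Φ σ (t v) = t (Φ σ v) := by
    intro σ v
    have h1 : ∀ g : K →ₗ[E] K, ∑ j ∈ Finset.range (m + 1), a j (g (p j (t v))) =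
        t (∑ j ∈ Finset.range (m + 1), a j (g (p j v))) := by
      intro g
      rw [map_sum, Finset.sum_range_succ', Finset.sum_range_succ, hp0, map_zero, map_zero, add_zero,
        hta, hak, add_zero]
      refine Finset.sum_congr rfl fun j hj => ?_
      rw [hta, hpt j (Finset.mem_range.1 hj)]
    have h2 := h1 LinearMap.id
    simp only [LinearMap.id_apply] at h2
    rw [hΦ, hΦ, h2, h1 σ, map_add, map_sub]
  refine ⟨⟨Φ θ.val, Φ θ⁻¹.val, LinearMap.ext fun v => ?_, LinearMap.ext fun v => ?_⟩,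
    LinearMap.ext fun v => hcomm _ v, fun j hj v => hp _ j hj v⟩
  · change Φ θ.val (Φ θ⁻¹.val v) = v
    rw [hmul]
    have h : θ.val ∘ₗ θ⁻¹.val = LinearMap.id := θ.mul_inv
    rw [h, hone]
  · change Φ θ⁻¹.val (Φ θ.val v) = v
    rw [hmul]
    have h : θ⁻¹.val ∘ₗ θ.val = LinearMap.id := θ.inv_mul
    rw [h, hone]

section basis

variable {d : ℕ} {k : Fin d → ℕ} (b : Module.Basis (Σ i : Fin d, Fin (k i)) E W)

/-- The basis vectors with natural number indices. -/
noncomputable def ve (i : Fin d) (j : ℕ) : W := if h : j < k i then b ⟨i, ⟨j, h⟩⟩ else 0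

/-- The coordinates with natural number indices. -/
noncomputable def co (i : Fin d) (j : ℕ) : W →ₗ[E] E :=
  if h : j < k i then b.coord ⟨i, ⟨j, h⟩⟩ else 0

theorem ve_fin (i : Fin d) (j : Fin (k i)) : ve b i j = b ⟨i, j⟩ := by
  unfold ve
  rw [dif_pos j.2]

theorem ve_zero (i : Fin d) (j : ℕ) (h : k i ≤ j) : ve b i j = 0 := by
  unfold ve
  rw [dif_neg (by omega)]

theorem co_ve (i i' : Fin d) (j j' : ℕ) :
    co b i j (ve b i' j') = if i = i' ∧ j = j' ∧ j < k i then 1 else 0 := by
  unfold co ve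
  by_cases h : j < k i
  · by_cases h' : j' < k i'
    · rw [dif_pos h, dif_pos h', Module.Basis.coord_apply, Module.Basis.repr_self]
      by_cases hii : i = i'
      · subst hii
        by_cases hjj : j = j'
        · subst hjj
          rw [Finsupp.single_eq_same, if_pos ⟨rfl, rfl, h⟩]
        · rw [Finsupp.single_eq_of_ne, if_neg (fun hh => hjj hh.2.1)]
          intro hh
          have h2 := eq_of_heq (Sigma.mk.inj hh).2
          exact hjj (Fin.mk.inj h2)
      · rw [Finsupp.single_eq_of_ne, if_neg (fun hh => hii hh.1)]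
        intro hh
        exact hii (Sigma.mk.inj hh).1
    · rw [dif_neg h', map_zero, if_neg]
      rintro ⟨rfl, rfl, hh⟩
      exact h' hh
  · rw [dif_neg h, if_neg (fun hh => h hh.2.2)]
    rfl

theorem co_ext {V' : Type} [AddCommGroup V'] [Module E V'] (f g : W →ₗ[E] V')
    (h : ∀ i j, j < k i → f (ve b i j) = g (ve b i j)) : f = g := by
  refine b.ext ?_
  rintro ⟨i, j⟩
  rw [← ve_fin b i j]
  exact h i j j.2

variable (t : W →ₗ[E] W) (hb : ∀ i j, t (b ⟨i, j⟩) =
  if h : (j : ℕ) + 1 < k i then b ⟨i, ⟨j + 1, h⟩⟩ else 0)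

include hb in
theorem t_ve (i : Fin d) (j : ℕ) : t (ve b i j) = ve b i (j + 1) := by
  by_cases h : j < k i
  · have h1 := hb i ⟨j, h⟩
    have h2 : ve b i j = b ⟨i, ⟨j, h⟩⟩ := by
      unfold ve
      rw [dif_pos h]
    rw [h2, h1]
    rfl
  · rw [ve_zero b i j (by omega), ve_zero b i (j + 1) (by omega), map_zero]

include hb in
theorem pow_ve (m : ℕ) (i : Fin d) (j : ℕ) : (t ^ m) (ve b i j) = ve b i (j + m) := by
  induction m with
  | zero => rfl
  | succ m ih =>
    rw [pow_succ']
    change t ((t ^ m) (ve b i j)) = _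
    rw [ih, t_ve b t hb]
    rfl

include hb in
theorem co_pow (m : ℕ) (i : Fin d) (j : ℕ) (h : j + m < k i) (v : W) :
    co b i (j + m) ((t ^ m) v) = co b i j v := by
  have h1 : (co b i (j + m)) ∘ₗ (t ^ m) = co b i j := by
    refine co_ext b _ _ fun i' j' hj' => ?_
    rw [LinearMap.comp_apply, pow_ve b t hb, co_ve, co_ve]
    refine if_congr ?_ rfl rfl
    constructor
    · rintro ⟨h1, h2, h3⟩
      exact ⟨h1, by omega, by omega⟩
    · rintro ⟨h1, h2, h3⟩
      exact ⟨h1, by omega, by omega⟩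
  exact LinearMap.congr_fun h1 v

include hb in
theorem co_pow_lt (m : ℕ) (i : Fin d) (j : ℕ) (h : j < m) (v : W) :
    co b i j ((t ^ m) v) = 0 := by
  have h1 : (co b i j) ∘ₗ (t ^ m) = 0 := by
    refine co_ext b _ _ fun i' j' hj' => ?_
    rw [LinearMap.comp_apply, pow_ve b t hb, co_ve, if_neg, LinearMap.zero_apply]
    rintro ⟨h1, h2, h3⟩
    omega
  exact LinearMap.congr_fun h1 v

/-- The subspaces of the chain. -/
def Dd (h j : ℕ) : Submodule E W where
  carrier := {v | ∀ i j', ¬ (k i < h + j' ∨ (k i = h + j' ∧ j ≤ j')) → co b i j' v = 0}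
  add_mem' := by
    intro v w hv hw i j' hP
    rw [map_add, hv i j' hP, hw i j' hP, add_zero]
  zero_mem' := by
    intro i j' _
    rw [map_zero]
  smul_mem' := by
    intro c v hv i j' hP
    rw [map_smul, hv i j' hP, smul_zero]

theorem mem_Dd (h j : ℕ) (v : W) : v ∈ Dd b h j ↔
    ∀ i j', ¬ (k i < h + j' ∨ (k i = h + j' ∧ j ≤ j')) → co b i j' v = 0 := Iff.rfl

theorem Dd_ve (h j : ℕ) (i : Fin d) (j' : ℕ) (hP : k i < h + j' ∨ (k i = h + j' ∧ j ≤ j')) :
    ve b i j' ∈ Dd b h j := by
  intro i'' j'' hn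
  rw [co_ve, if_neg]
  rintro ⟨rfl, rfl, _⟩
  exact hn hP

theorem Dd_le (h j : ℕ) : Dd b h (j + 1) ≤ Dd b h j := by
  intro v hv i j' hn
  refine hv i j' fun hh => hn ?_
  rcases hh with hh | ⟨h1, h2⟩
  · exact Or.inl hh
  · exact Or.inr ⟨h1, by omega⟩

include hb in
theorem Dd_inv (h j : ℕ) (h1 : 1 ≤ h) (y : W →ₗ[E] W) (hy : Commute y t) (v : W)
    (hv : v ∈ Dd b h j) : y v ∈ Dd b h j := by
  have hyp : ∀ m w, y ((t ^ m) w) = (t ^ m) (y w) := fun m w =>
    LinearMap.congr_fun (hy.pow_right m).eq w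
  have hbx : ∀ i j', (k i < h + j' ∨ (k i = h + j' ∧ j ≤ j')) → y (ve b i j') ∈ Dd b h j := by
    intro i j' hP i'' j'' hn
    rcases hP with hP | ⟨hP, hjj⟩
    · have h2 : (t ^ (h - 1)) (y (ve b i j')) = 0 := by
        rw [← hyp, pow_ve b t hb, ve_zero b i _ (by omega), map_zero]
      have h3 := co_pow b t hb (h - 1) i'' j'' (by
        by_contra h4
        exact hn (Or.inl (by omega))) (y (ve b i j'))
      rw [← h3, h2, map_zero]
    · have h2 : ve b i j' = (t ^ j') (ve b i 0) := by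
        rw [pow_ve b t hb, zero_add]
      by_cases hlt : j'' < j'
      · rw [h2, hyp, co_pow_lt b t hb j' i'' j'' hlt]
      · have h5 : (t ^ h) (y (ve b i j')) = 0 := by
          rw [← hyp, pow_ve b t hb, ve_zero b i _ (by omega), map_zero]
        have h3 := co_pow b t hb h i'' j'' (by
          by_contra h4
          refine hn ?_
          by_cases h6 : k i'' = h + j''
          · exact Or.inr ⟨h6, by omega⟩
          · exact Or.inl (by omega)) (y (ve b i j'))
        rw [← h3, h5, map_zero]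
  classical
  rw [← b.sum_repr v, map_sum]
  refine Submodule.sum_mem _ fun x _ => ?_
  rw [map_smul]
  obtain ⟨i, j'⟩ := x
  by_cases hP : k i < h + j' ∨ (k i = h + j' ∧ j ≤ j')
  · rw [← ve_fin b i j']
    exact Submodule.smul_mem _ _ (hbx i j' hP)
  · have h7 := hv i j' hP
    unfold co at h7
    rw [dif_pos j'.2] at h7
    have h8 : b.repr v ⟨i, j'⟩ = 0 := h7
    rw [h8, zero_smul]
    exact Submodule.zero_mem _

include hb in
theorem Dd_lift (h j : ℕ) (h1 : 1 ≤ h) (A B : Submodule E W) (hA : A = Dd b h j)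
    (hB : B = Dd b h (j + 1)) (θ : (Fac A B →ₗ[E] Fac A B)ˣ) :
    ∃ u : (W →ₗ[E] W)ˣ, Commute u.val t ∧ ∀ (v : W) (hv : v ∈ A) (hu : u.val v ∈ A),
      (B.submoduleOf A).mkQ ⟨u.val v, hu⟩ = θ.val ((B.submoduleOf A).mkQ ⟨v, hv⟩) := by
  classical
  subst hA hB
  set m := h + j - 1 with hm
  have hm1 : m + 1 = h + j := by omega
  -- the multiplicity space
  let I := {i : Fin d // k i = h + j}
  let p : ℕ → W →ₗ[E] (I → E) := fun j' => LinearMap.pi fun i => co b i.1 j'
  have hpv : ∀ j' v (i : I), p j' v i = co b i.1 j' v := fun _ _ _ => rfl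
  have ha : ∀ j' : ℕ, ∃ a : (I → E) →ₗ[E] W, ∀ f, a f = ∑ i : I, f i • ve b i.1 j' := by
    intro j'
    refine ⟨∑ i : I, (LinearMap.toSpanSingleton E W (ve b i.1 j')) ∘ₗ (LinearMap.proj i),
      fun f => ?_⟩
    rw [LinearMap.sum_apply]
    rfl
  choose a ha using ha
  have hpa : ∀ j1 j2, j1 ≤ m → j2 ≤ m → ∀ x, p j1 (a j2 x) = if j1 = j2 then x else 0 := by
    intro j1 j2 hj1 hj2 x
    funext i
    rw [hpv, ha, map_sum, Finset.sum_eq_single i]
    · rw [map_smul, co_ve]
      by_cases hjj : j1 = j2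
      · subst hjj
        rw [if_pos ⟨rfl, rfl, by rw [i.2]; omega⟩, if_pos rfl, smul_eq_mul, mul_one]
      · rw [if_neg (fun hh => hjj hh.2.1), if_neg hjj, smul_zero]
        rfl
    · intro i' _ hne
      rw [map_smul, co_ve, if_neg, smul_zero]
      rintro ⟨h2, _, _⟩
      exact hne (Subtype.ext h2.symm)
    · intro hh
      exact absurd (Finset.mem_univ i) hh
  have hta : ∀ j' x, t (a j' x) = a (j' + 1) x := by
    intro j' x
    rw [ha, ha, map_sum]
    refine Finset.sum_congr rfl fun i _ => ?_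
    rw [map_smul, t_ve b t hb]
  have hak : ∀ x, a (m + 1) x = 0 := by
    intro x
    rw [ha]
    refine Finset.sum_eq_zero fun i _ => ?_
    rw [ve_zero b i.1 _ (by rw [i.2]; omega), smul_zero]
  have hpt : ∀ j', j' < m → ∀ v, p (j' + 1) (t v) = p j' v := by
    intro j' hj' v
    funext i
    have h2 := co_pow b t hb 1 i.1 j' (by rw [i.2]; omega) v
    rw [pow_one] at h2
    exact h2
  have hp0 : ∀ v, p 0 (t v) = 0 := by
    intro v
    funext i
    have h2 := co_pow_lt b t hb 1 i.1 0 (by omega) v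
    rw [pow_one] at h2
    exact h2
  -- the isomorphism
  let ρ : Dd b h j →ₗ[E] (I → E) := (p j) ∘ₗ (Dd b h j).subtype
  have hker : (Dd b h (j + 1)).submoduleOf (Dd b h j) = LinearMap.ker ρ := by
    ext v
    rw [LinearMap.mem_ker, Submodule.submoduleOf, Submodule.mem_comap]
    constructor
    · intro hv
      funext i
      refine hv i.1 j ?_
      rintro (hh | ⟨_, hh⟩)
      · have := i.2
        omega
      · omega
    · intro hv i j' hn
      by_cases hP : k i < h + j' ∨ (k i = h + j' ∧ j ≤ j')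
      · have hkj : k i = h + j' ∧ j' = j := by
          rcases hP with hP | ⟨hP, hjj⟩
          · exact absurd (Or.inl hP) hn
          · refine ⟨hP, ?_⟩
            by_contra hne
            exact hn (Or.inr ⟨hP, by omega⟩)
        obtain ⟨hk, rfl⟩ := hkj
        exact congrFun hv ⟨i, hk⟩
      · exact v.2 i j' hP
  have hsurj : Function.Surjective ρ := by
    intro f
    have hmem : a j f ∈ Dd b h j := by
      rw [ha]
      refine Submodule.sum_mem _ fun i _ => Submodule.smul_mem _ _ ?_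
      exact Dd_ve b h j i.1 j (Or.inr ⟨i.2, le_refl _⟩)
    refine ⟨⟨a j f, hmem⟩, ?_⟩
    change p j (a j f) = f
    rw [hpa j j (by omega) (by omega), if_pos rfl]
  let e : Fac (Dd b h j) (Dd b h (j + 1)) ≃ₗ[E] (I → E) :=
    (Submodule.quotEquivOfEq _ _ hker).trans (ρ.quotKerEquivOfSurjective hsurj)
  have he : ∀ v : Dd b h j, e (((Dd b h (j + 1)).submoduleOf (Dd b h j)).mkQ v) = p j v.1 :=
    fun v => rfl
  have hconj : ∀ σ τ : (Fac (Dd b h j) (Dd b h (j + 1)) →ₗ[E] Fac (Dd b h j) (Dd b h (j + 1))),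
      σ ∘ₗ τ = LinearMap.id → e.conj σ * e.conj τ = 1 := by
    intro σ τ hστ
    refine LinearMap.ext fun x => ?_
    change e (σ (e.symm (e (τ (e.symm x))))) = x
    have h2 : σ (τ (e.symm x)) = e.symm x := LinearMap.congr_fun hστ (e.symm x)
    rw [e.symm_apply_apply, h2, e.apply_symm_apply]
  let θ' : ((I → E) →ₗ[E] (I → E))ˣ := ⟨e.conj θ.val, e.conj θ⁻¹.val,
    hconj _ _ θ.mul_inv, hconj _ _ θ.inv_mul⟩
  obtain ⟨u, hu1, hu2⟩ := nil_lift t m a p hpa hta hak hpt hp0 θ'
  refine ⟨u, hu1, fun v hv hu => ?_⟩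
  apply e.injective
  rw [he, hu2 j (by omega) v]
  change e (θ.val (e.symm (p j v))) = _
  have h9 := he ⟨v, hv⟩
  rw [← h9, LinearEquiv.symm_apply_apply]

end basis

theorem exists_nil_chain [FiniteDimensional E W] (t : W →ₗ[E] W) {q : ℕ} (ht : t ^ q = 0) :
    ∃ D : ℕ → Submodule E W, D 0 = ⊤ ∧ (∀ l, q * q ≤ l → D l = ⊥) ∧ (∀ l, D (l + 1) ≤ D l) ∧
      (∀ l, ∀ y : W →ₗ[E] W, Commute y t → ∀ v ∈ D l, y v ∈ D l) ∧
      ∀ l, ∀ θ : (Fac (D l) (D (l + 1)) →ₗ[E] Fac (D l) (D (l + 1)))ˣ,
        ∃ u : (W →ₗ[E] W)ˣ, Commute u.val t ∧ ∀ (v : W) (hv : v ∈ D l) (hu : u.val v ∈ D l),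
          ((D (l + 1)).submoduleOf (D l)).mkQ ⟨u.val v, hu⟩ =
            θ.val (((D (l + 1)).submoduleOf (D l)).mkQ ⟨v, hv⟩) := by
  classical
  obtain ⟨d, k, b, hk, hb⟩ := exists_adapted_basis t ht
  let D : ℕ → Submodule E W := fun l => if l < q * q then Dd b (q - l / q) (l % q) else ⊥
  have hD1 : ∀ l, l < q * q → D l = Dd b (q - l / q) (l % q) := fun l hl => if_pos hl
  have hD2 : ∀ l, q * q ≤ l → D l = ⊥ := fun l hl => if_neg (by omega)
  have hbot : ∀ h j, q ≤ j → h = 1 → Dd b h j = ⊥ := by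
    intro h j hj hh
    subst hh
    rw [eq_bot_iff]
    intro v hv
    rw [Submodule.mem_bot]
    have h1 : ∀ x, b.repr v x = 0 := by
      rintro ⟨i, j'⟩
      have h7 := hv i j' (by
        have := j'.2
        have := hk i
        omega)
      unfold co at h7
      rw [dif_pos j'.2] at h7
      exact h7
    rw [← b.sum_repr v]
    refine Finset.sum_eq_zero fun x _ => ?_
    rw [h1, zero_smul]
  have hstep : ∀ l, l < q * q → D (l + 1) = Dd b (q - l / q) (l % q + 1) := by
    intro l hl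
    have hq : 0 < q := by
      rcases Nat.eq_zero_or_pos q with h | h
      · subst h
        omega
      · exact h
    have hdiv : l / q < q := Nat.div_lt_of_lt_mul hl
    have hmod : l % q < q := Nat.mod_lt _ hq
    have hdm := Nat.div_add_mod l q
    by_cases hj : l % q + 1 < q
    · have h1 : (l + 1) / q = l / q := by
        rw [show l + 1 = (l % q + 1) + q * (l / q) by omega, Nat.add_mul_div_left _ _ hq,
          Nat.div_eq_of_lt hj, zero_add]
      have h2 : (l + 1) % q = l % q + 1 := by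
        rw [show l + 1 = (l % q + 1) + q * (l / q) by omega, Nat.add_mul_mod_self_left,
          Nat.mod_eq_of_lt hj]
      have h3 : l + 1 < q * q := by
        have : q * (l / q) + q ≤ q * q := by
          calc q * (l / q) + q = q * (l / q + 1) := by ring
            _ ≤ q * q := Nat.mul_le_mul_left q hdiv
        omega
      rw [hD1 _ h3, h1, h2]
    · have hj' : l % q + 1 = q := by omega
      have h0 : l + 1 = q * (l / q + 1) := by
        rw [mul_add, mul_one]
        omega
      have h1 : (l + 1) / q = l / q + 1 := by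
        rw [h0, Nat.mul_div_cancel_left _ hq]
      have h2 : (l + 1) % q = 0 := by
        rw [h0, Nat.mul_mod_right]
      rw [hj']
      by_cases h3 : l + 1 < q * q
      · have h4 : l / q + 1 < q := by
          rw [h0] at h3
          exact Nat.lt_of_mul_lt_mul_left h3
        rw [hD1 _ h3, h1, h2]
        ext v
        rw [mem_Dd, mem_Dd]
        constructor
        · intro hv i j' hn
          by_cases hj2 : j' < k i
          · have := hk i
            exact hv i j' (by omega)
          · unfold co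
            rw [dif_neg hj2]
            rfl
        · intro hv i j' hn
          by_cases hj2 : j' < k i
          · have := hk i
            exact hv i j' (by omega)
          · unfold co
            rw [dif_neg hj2]
            rfl
      · rw [hD2 _ (by omega), hbot _ _ (le_refl q)]
        have h4 : q * q ≤ q * (l / q + 1) := by
          rw [← h0]
          omega
        have h5 : q ≤ l / q + 1 := Nat.le_of_mul_le_mul_left h4 hq
        omega
  have hh1 : ∀ l, l < q * q → 1 ≤ q - l / q := by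
    intro l hl
    have hdiv : l / q < q := Nat.div_lt_of_lt_mul hl
    omega
  refine ⟨D, ?_, hD2, ?_, ?_, ?_⟩
  · rw [eq_top_iff]
    intro v _
    rcases Nat.eq_zero_or_pos q with h | h
    · subst h
      have h1 : v = 0 := by
        have := LinearMap.congr_fun ht v
        simpa using this
      rw [h1]
      exact Submodule.zero_mem _
    · rw [hD1 0 (Nat.mul_pos h h), mem_Dd]
      intro i j' hn
      have := hk i
      rw [Nat.zero_div, Nat.zero_mod] at hn
      exfalso
      omega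
  · intro l
    by_cases hl : l < q * q
    · rw [hD1 l hl, hstep l hl]
      exact Dd_le b _ _
    · rw [hD2 l (by omega), hD2 (l + 1) (by omega)]
  · intro l y hy v hv
    by_cases hl : l < q * q
    · rw [hD1 l hl] at hv ⊢
      exact Dd_inv b t hb _ _ (hh1 l hl) y hy v hv
    · rw [hD2 l (by omega)] at hv ⊢
      rw [Submodule.mem_bot] at hv ⊢
      rw [hv, map_zero]
  · intro l θ
    by_cases hl : l < q * q
    · exact Dd_lift b t hb _ _ (hh1 l hl) _ _ (hD1 l hl) (hstep l hl) θ
    · refine ⟨1, Commute.one_left _, fun v hv hu => ?_⟩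
      have h1 : v = 0 := by
        have h2 := hv
        rw [hD2 l (by omega), Submodule.mem_bot] at h2
        exact h2
      subst h1
      have h2 : (⟨(0 : W), hv⟩ : D l) = 0 := rfl
      have h3 : (⟨((1 : (W →ₗ[E] W)ˣ).val) 0, hu⟩ : D l) = 0 := rfl
      rw [h2, h3, map_zero, map_zero]

end Pool.Agent.Lib.MP_b9166b_al.Ks2
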