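import Pool.Agent.Lib.MP_b9166b_al.Ks.Part
import Pool.Agent.Lib.MP_b9166b_al.Ks2.NilChain

/-!
# Sections of a linear map: auxiliary lemmas
-/

set_option autoImplicit false

namespace Pool.Agent.Lib.MP_b9166b_al.Ks2

open Ks

theorem scalar_of_comm {E W : Type} [Field E] [AddCommGroup W] [Module E W] (f : W →ₗ[E] W)
    (h : ∀ u : W →ₗ[E] W, ∀ w, f (u w) = u (f w)) : ∃ β : E, ∀ w, f w = β • w := by
  by_cases hx : ∃ x : W, x ≠ 0
  · obtain ⟨x, hx⟩ := hx
    have h1 : ∃ φ : Module.Dual E W, φ x ≠ 0 := by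
      by_contra hcon
      push Not at hcon
      exact hx ((Module.forall_dual_apply_eq_zero_iff E x).1 hcon)
    obtain ⟨φ, hφ⟩ := h1
    refine ⟨(φ x)⁻¹ * φ (f x), fun w => ?_⟩
    have h2 := h (φ.smulRight w) x
    rw [LinearMap.smulRight_apply, LinearMap.smulRight_apply, map_smul] at h2
    rw [mul_smul, ← h2, smul_smul, inv_mul_cancel₀ hφ, one_smul]
  · push Not at hx
    refine ⟨0, fun w => ?_⟩
    rw [hx w, map_zero, smul_zero]

open Polynomial PartAux in
/-- The parts of a semisimple map, with their orthogonality. -/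
theorem exists_parts_orth {F V : Type} [Field F] [AddCommGroup V] [Module F V] [FiniteDimensional F V]
    (a : V →ₗ[F] V) {m : ℕ} (hm : (m : F) ≠ 0) {c : F} (hc : c ≠ 0) (ha : a ^ m = c • 1) :
    ∃ (k : ℕ) (P : Fin k → Part F V a m), k ≤ m ∧ (∀ v, v = ∑ i, (P i).j ((P i).q v)) ∧
      ∀ i i', i ≠ i' → ∀ w, (P i').q ((P i).j w) = 0 := by
  classical
  have hm0 : m ≠ 0 := by rintro rfl; exact hm (by simp)
  set p : F[X] := X ^ m - C c with hp
  have hsep : p.Separable := separable_X_pow_sub_C c hm hc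
  have hmon : p.Monic := monic_X_pow_sub_C c hm0
  have hp0 : p ≠ 0 := hmon.ne_zero
  have hdeg : p.natDegree = m := natDegree_X_pow_sub_C
  have hpa : aeval a p = 0 := by
    rw [hp, map_sub, map_pow, aeval_X, aeval_C, ha, Algebra.algebraMap_eq_smul_one, sub_self]
  let M := UniqueFactorizationMonoid.normalizedFactors p
  let S := M.toFinset
  have hnd : M.Nodup :=
    (UniqueFactorizationMonoid.squarefree_iff_nodup_normalizedFactors hp0).1 hsep.squarefree
  have hirr : ∀ f ∈ S, Irreducible f := fun f hf =>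
    UniqueFactorizationMonoid.irreducible_of_normalized_factor f (Multiset.mem_toFinset.1 hf)
  have hprod : Associated (∏ f ∈ S, f) p := by
    have h1 : ∏ f ∈ S, f = M.prod := by
      rw [Finset.prod_multiset_count_of_subset M S (fun x hx => hx)] 
      refine Finset.prod_congr rfl fun f hf => ?_
      rw [Multiset.count_eq_one_of_mem hnd (Multiset.mem_toFinset.1 hf), pow_one]
    rw [h1]
    exact UniqueFactorizationMonoid.prod_normalizedFactors hp0
  let k := S.card
  let s : Fin k → F[X] := fun i => (S.equivFin.symm i).1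
  have hsS : ∀ i, s i ∈ S := fun i => (S.equivFin.symm i).2
  have hsinj : Function.Injective s := fun i i' h => S.equivFin.symm.injective (Subtype.ext h)
  have hprods : ∏ i, s i = ∏ f ∈ S, f := by
    rw [← Finset.prod_coe_sort S (fun f => f)]
    exact Fintype.prod_equiv S.equivFin.symm _ _ (fun i => rfl)
  have hk : k ≤ m := by
    have h1 : (∏ i, s i).natDegree = m := by
      rw [hprods, natDegree_eq_of_degree_eq (degree_eq_degree_of_associated hprod), hdeg]
    rw [natDegree_prod _ _ (fun i _ => (hirr _ (hsS i)).ne_zero)] at h1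
    rw [← h1]
    calc k = ∑ i : Fin k, 1 := by simp
      _ ≤ ∑ i : Fin k, (s i).natDegree := by
        refine Finset.sum_le_sum fun i _ => ?_
        exact (hirr _ (hsS i)).natDegree_pos
  have hcop : Pairwise (Function.onFun IsCoprime s) := by
    intro i i' hii
    refine (Irreducible.coprime_iff_not_dvd (hirr _ (hsS i))).2 ?_
    intro hd
    have h1 : Associated (s i) (s i') := (hirr _ (hsS i)).associated_of_dvd (hirr _ (hsS i')) hd
    have h2 : s i = s i' := by
      have e1 := UniqueFactorizationMonoid.normalize_normalized_factor (s i) (Multiset.mem_toFinset.1 (hsS i))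
      have e2 := UniqueFactorizationMonoid.normalize_normalized_factor (s i') (Multiset.mem_toFinset.1 (hsS i'))
      rw [← e1, ← e2]
      exact normalize_eq_normalize_iff_associated.2 h1
    exact hii (hsinj h2)
  have hk0 : Nonempty (Fin k) := by
    rw [← Fin.pos_iff_nonempty]
    by_contra h0
    have h1 : (∏ i, s i).natDegree = m := by
      rw [hprods, natDegree_eq_of_degree_eq (degree_eq_degree_of_associated hprod), hdeg]
    have : IsEmpty (Fin k) := by
      rw [Nat.eq_zero_of_not_pos h0]; infer_instance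
    rw [Finset.univ_eq_empty, Finset.prod_empty, natDegree_one] at h1
    exact hm0 h1.symm
  obtain ⟨μ, hμ⟩ := exists_sum_eq_one_iff_pairwise_coprime'.2 hcop
  let e : Fin k → F[X] := fun i => μ i * ∏ j ∈ {i}ᶜ, s j
  have hpz : aeval a (∏ i, s i) = 0 := by
    rw [hprods]
    obtain ⟨u, hu⟩ := hprod.symm
    rw [← hu, map_mul, hpa, zero_mul]
  have hfe : ∀ i v, aeval a (s i) (aeval a (e i) v) = 0 := by
    intro i v
    rw [← Module.End.mul_apply, ← map_mul]
    have : s i * e i = μ i * ∏ i, s i := by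
      rw [← Finset.mul_prod_erase Finset.univ s (Finset.mem_univ i)]
      have : ({i}ᶜ : Finset (Fin k)) = Finset.univ.erase i := by
        ext; simp
      simp only [e, this]
      ring
    rw [this, map_mul, hpz, mul_zero]; rfl
  have hsum : ∀ v, v = ∑ i, aeval a (e i) v := by
    intro v
    have h1 : aeval a (∑ i, e i) v = v := by
      rw [hμ, map_one]; rfl
    rw [map_sum, LinearMap.sum_apply] at h1
    exact h1.symm
  have hze : ∀ i j v, i ≠ j → aeval a (s i) v = 0 → aeval a (e j) v = 0 := by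
    intro i j v hji hv
    have : e j = (μ j * ∏ l ∈ ({j}ᶜ : Finset (Fin k)).erase i, s l) * s i := by
      simp only [e]
      rw [← Finset.mul_prod_erase ({j}ᶜ : Finset (Fin k)) s (a := i) (by simp [hji])]
      ring
    rw [this, map_mul, Module.End.mul_apply, hv, map_zero]
  have hid : ∀ i v, aeval a (s i) v = 0 → aeval a (e i) v = v := by
    intro i v hv
    conv_rhs => rw [hsum v]
    rw [Finset.sum_eq_single_of_mem i (Finset.mem_univ i)]
    intro j _ hji
    exact hze i j v (Ne.symm hji) hv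
  have hnat : ∀ i, (s i).natDegree ≤ m := by
    intro i
    rw [← hdeg]
    exact natDegree_le_of_dvd (UniqueFactorizationMonoid.dvd_of_mem_normalizedFactors
      (Multiset.mem_toFinset.1 (hsS i))) hp0
  choose P hP using fun i => exists_part a m (s i) (e i) (hirr _ (hsS i)) (hnat i) (hfe i) (hid i)
  refine ⟨k, P, hk, fun v => ?_, fun i i' hii w => ?_⟩
  · conv_lhs => rw [hsum v]
    exact Finset.sum_congr rfl fun i _ => (hP i v).symm
  · have h1 : aeval a (s i) ((P i).j w) = 0 := by
      have h2 := hP i ((P i).j w)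
      rw [(P i).qj] at h2
      rw [h2, hfe]
    have h3 := hP i' ((P i).j w)
    rw [hze i i' _ hii h1] at h3
    rw [← (P i').qj ((P i').q ((P i).j w)), h3, map_zero]

section finite

theorem exists_frob_root {E : Type} [Field E] [Finite E] {p : ℕ} [Fact p.Prime] [CharP E p] (α : ℕ)
    (β : E) : ∃ γ : E, γ ^ (p ^ α) = β := by
  have h1 : Function.Injective (fun x : E => x ^ (p ^ α)) := by
    intro x y hxy
    exact iterateFrobenius_inj E p α hxy
  exact (Finite.injective_iff_surjective.1 h1) β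

theorem nil_of_scalar {E W : Type} [Field E] [AddCommGroup W] [Module E W] {p : ℕ} [Fact p.Prime]
    [CharP E p] (α : ℕ) (f : W →ₗ[E] W) (γ : E) (h : ∀ w, (f ^ (p ^ α)) w = γ ^ (p ^ α) • w) :
    (f - γ • (1 : W →ₗ[E] W)) ^ (p ^ α) = 0 := by
  rcases subsingleton_or_nontrivial W with hW | hW
  · exact LinearMap.ext fun w => Subsingleton.elim _ _
  · have : CharP (W →ₗ[E] W) p :=
      charP_of_injective_algebraMap (FaithfulSMul.algebraMap_injective E (Module.End E W)) p
    have hc : Commute f (γ • (1 : W →ₗ[E] W)) := by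
      have := (Commute.one_right f).smul_right γ
      exact this
    rw [sub_pow_char_pow_of_commute _ _ hc, smul_pow, one_pow]
    refine LinearMap.ext fun w => ?_
    rw [LinearMap.sub_apply, h, LinearMap.smul_apply, LinearMap.zero_apply]
    exact sub_self _

end finite

theorem part_chain {F V : Type} [Field F] [Finite F] [AddCommGroup V] [Module F V]
    (a : V →ₗ[F] V) {p : ℕ} [Fact p.Prime] [CharP F p] (α : ℕ) {m' : ℕ}
    (P : Part F V (a ^ (p ^ α)) m') :
    ∃ D : ℕ → Submodule P.E P.W, D 0 = ⊤ ∧ (∀ l, (p ^ α) * (p ^ α) ≤ l → D l = ⊥) ∧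
      (∀ l, D (l + 1) ≤ D l) ∧
      (∀ y : V →ₗ[F] V, Commute y a → ∃ u : P.W →ₗ[P.E] P.W, (∀ v, P.q (y v) = u (P.q v)) ∧
        ∀ l, ∀ w ∈ D l, u w ∈ D l) ∧
      ∀ l, ∀ θ : (Fac (D l) (D (l + 1)) →ₗ[P.E] Fac (D l) (D (l + 1)))ˣ,
        ∃ U : (V →ₗ[F] V)ˣ, Commute U.val a ∧ ∀ (v : V) (hv : P.q v ∈ D l)
          (hu : P.q (U.val v) ∈ D l),
          ((D (l + 1)).submoduleOf (D l)).mkQ ⟨P.q (U.val v), hu⟩ =
            θ.val (((D (l + 1)).submoduleOf (D l)).mkQ ⟨P.q v, hv⟩) := by
  have hjinj : ∀ w w', P.j w = P.j w' → w = w' := by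
    intro w w' h
    rw [← P.qj w, ← P.qj w', h]
  obtain ⟨aW, haj, haq⟩ := P.res a (Commute.pow_right (Commute.refl a) _)
  have hpow : ∀ n w, P.j ((aW ^ n) w) = (a ^ n) (P.j w) := by
    intro n
    induction n with
    | zero => intro w; rfl
    | succ n ih =>
      intro w
      rw [pow_succ, pow_succ]
      change P.j ((aW ^ n) (aW w)) = (a ^ n) (a (P.j w))
      rw [ih, haj]
  obtain ⟨β, hβ⟩ := scalar_of_comm (aW ^ (p ^ α)) (by
    intro u w
    apply hjinj
    have h1 := LinearMap.congr_fun (P.ext_comm u).eq (P.j w)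
    simp only [Module.End.mul_apply, LinearMap.add_apply, LinearMap.comp_apply,
      LinearMap.restrictScalars_apply, LinearMap.sub_apply, Module.End.one_apply, P.qj,
      sub_self, add_zero] at h1
    rw [hpow, ← h1, ← hpow, P.qj, sub_self, add_zero])
  have : Finite P.E := Module.finite_of_finite F
  have : CharP P.E p := charP_of_injective_algebraMap (algebraMap F P.E).injective p
  obtain ⟨γ, hγ⟩ := exists_frob_root (p := p) α β
  obtain ⟨D, hD0, hD1, hD2, hD3, hD4⟩ := exists_nil_chain (aW - γ • (1 : P.W →ₗ[P.E] P.W))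
    (nil_of_scalar α aW γ (fun w => by rw [hβ, hγ]))
  have hct : ∀ u : P.W →ₗ[P.E] P.W, Commute u aW → Commute u (aW - γ • (1 : P.W →ₗ[P.E] P.W)) := by
    intro u hu
    exact hu.sub_right ((Commute.one_right u).smul_right γ)
  have hcs : ∀ u : P.W →ₗ[P.E] P.W, Commute u (aW - γ • (1 : P.W →ₗ[P.E] P.W)) → Commute u aW := by
    intro u hu
    have h1 := hu.add_right ((Commute.one_right u).smul_right γ)
    rw [sub_add_cancel] at h1
    exact h1
  refine ⟨D, hD0, hD1, hD2, ?_, ?_⟩
  · intro y hy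
    obtain ⟨u, hu1, hu2⟩ := P.res y (hy.pow_right _)
    refine ⟨u, hu2, fun l => hD3 l u (hct u ?_)⟩
    refine LinearMap.ext fun w => ?_
    apply hjinj
    change P.j (u (aW w)) = P.j (aW (u w))
    rw [← hu1, ← haj, ← haj, ← hu1]
    exact LinearMap.congr_fun hy.eq (P.j w)
  · intro l θ
    obtain ⟨u, hu1, hu2⟩ := hD4 l θ
    have hua := hcs u.val hu1
    have hu' : ∀ w, u.val (aW w) = aW (u.val w) := fun w => LinearMap.congr_fun hua.eq w
    have hgen : ∀ s s' : P.W →ₗ[P.E] P.W, (∀ w, s (s' w) = w) →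
        (P.j ∘ₗ (s.restrictScalars F) ∘ₗ P.q + (1 - P.j ∘ₗ P.q)) *
        (P.j ∘ₗ (s'.restrictScalars F) ∘ₗ P.q + (1 - P.j ∘ₗ P.q)) = 1 := by
      intro s s' hss
      refine LinearMap.ext fun v => ?_
      simp only [Module.End.mul_apply, LinearMap.add_apply, LinearMap.comp_apply,
        LinearMap.restrictScalars_apply, LinearMap.sub_apply, Module.End.one_apply, P.qj,
        map_add, map_sub, hss, sub_self, add_zero]
      abel
    refine ⟨⟨P.j ∘ₗ (u.val.restrictScalars F) ∘ₗ P.q + (1 - P.j ∘ₗ P.q),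
      P.j ∘ₗ (u⁻¹.val.restrictScalars F) ∘ₗ P.q + (1 - P.j ∘ₗ P.q),
      hgen _ _ (fun w => LinearMap.congr_fun u.mul_inv w),
      hgen _ _ (fun w => LinearMap.congr_fun u.inv_mul w)⟩, ?_, ?_⟩
    · refine LinearMap.ext fun v => ?_
      simp only [Module.End.mul_apply, LinearMap.add_apply, LinearMap.comp_apply,
        LinearMap.restrictScalars_apply, LinearMap.sub_apply, Module.End.one_apply, 
        map_add, map_sub, haj, haq, hu']
    · intro v hv hu
      have h1 : P.q ((P.j ∘ₗ (u.val.restrictScalars F) ∘ₗ P.q + (1 - P.j ∘ₗ P.q)) v) =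
          u.val (P.q v) := by
        simp only [LinearMap.add_apply, LinearMap.comp_apply,
          LinearMap.restrictScalars_apply, LinearMap.sub_apply, Module.End.one_apply, P.qj,
          map_add, map_sub, sub_self, add_zero]
      have h2 : u.val (P.q v) ∈ D l := by
        rw [← h1]
        exact hu
      rw [← hu2 (P.q v) hv h2]
      congr 1
      exact Subtype.ext h1

end Pool.Agent.Lib.MP_b9166b_al.Ks2
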