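import Pool.Agent.Lib.MP_b9166b_al.Ks.Part
import Pool.Agent.Lib.MP_b9166b_al.Ks2.NilChain
import Pool.Agent.Lib.MP_b9166b_al.Ks2.SectA

/-!
# Sections of a linear map

A section of (V, a): a subspace D stable under all maps commuting with a, with a surjection π of D onto a
space X over a finite extension E of F, such that maps commuting with a act on X as E-linear maps, and every
E-linear automorphism of X is induced by an automorphism of V commuting with a.
-/

set_option autoImplicit false

namespace Pool.Agent.Lib.MP_b9166b_al.Ks2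

open Ks

structure Sect (F V : Type) [Field F] [AddCommGroup V] [Module F V] (a : V →ₗ[F] V) (m : ℕ) where
  D : Submodule F V
  stab : ∀ y : V →ₗ[F] V, Commute y a → ∀ v ∈ D, y v ∈ D
  E : Type
  fld : Field E
  alg : Algebra F E
  fdE : FiniteDimensional F E
  hE : Module.finrank F E ≤ m
  X : Type
  grp : AddCommGroup X
  modF : Module F X
  modE : Module E X
  tow : IsScalarTower F E X
  fdX : FiniteDimensional E X
  π : D →ₗ[F] X
  surj : Function.Surjective π
  res : ∀ (y : V →ₗ[F] V) (hy : Commute y a), ∃ u : X →ₗ[E] X, ∀ v : D,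
    π ⟨y v, stab y hy v v.2⟩ = u (π v)
  lift : ∀ θ : (X →ₗ[E] X)ˣ, ∃ (u : (V →ₗ[F] V)ˣ) (hu : Commute u.val a), ∀ v : D,
    π ⟨u.val v, stab u.val hu v v.2⟩ = θ.val (π v)

attribute [instance] Sect.fld Sect.alg Sect.fdE Sect.grp Sect.modF Sect.modE Sect.tow Sect.fdX

/-- The section given by a pair of subspaces of a part. -/
theorem sect_of {F V : Type} [Field F] [AddCommGroup V] [Module F V] (a : V →ₗ[F] V) {m : ℕ}
    {E W : Type} [Field E] [Algebra F E] [FiniteDimensional F E] (hE : Module.finrank F E ≤ m)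
    [AddCommGroup W] [Module F W] [Module E W] [IsScalarTower F E W] [FiniteDimensional E W]
    (j : W →ₗ[F] V) (q : V →ₗ[F] W) (qj : ∀ w, q (j w) = w)
    (K : Submodule F V) (hK : ∀ y : V →ₗ[F] V, Commute y a → ∀ v ∈ K, y v ∈ K)
    (hKj : ∀ w, j w ∈ K) (A B : Submodule E W)
    (hres : ∀ y : V →ₗ[F] V, Commute y a → ∃ u : W →ₗ[E] W, (∀ v, q (y v) = u (q v)) ∧
      (∀ w ∈ A, u w ∈ A) ∧ ∀ w ∈ B, u w ∈ B)
    (hlift : ∀ θ : (Fac A B →ₗ[E] Fac A B)ˣ, ∃ U : (V →ₗ[F] V)ˣ, Commute U.val a ∧
      ∀ (v : V) (hv : q v ∈ A) (hu : q (U.val v) ∈ A),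
        (B.submoduleOf A).mkQ ⟨q (U.val v), hu⟩ = θ.val ((B.submoduleOf A).mkQ ⟨q v, hv⟩)) :
    ∃ S : Sect F V a m, (∀ v, v ∈ S.D ↔ v ∈ K ∧ q v ∈ A) ∧
      ∀ v : S.D, S.π v = 0 ↔ q v ∈ B := by
  let D : Submodule F V := K ⊓ (A.restrictScalars F).comap q
  have hDA : ∀ v : D, q v ∈ A := fun v => v.2.2
  let π : D →ₗ[F] Fac A B :=
    { toFun := fun v => (B.submoduleOf A).mkQ ⟨q v, hDA v⟩
      map_add' := fun v w => by
        rw [← map_add]
        congr 1
        exact Subtype.ext (map_add q (v : V) (w : V))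
      map_smul' := fun c v => by
        have h1 : (⟨q ((c • v : D) : V), hDA (c • v)⟩ : A) = c • ⟨q v, hDA v⟩ :=
          Subtype.ext (map_smul q c (v : V))
        rw [h1]
        rfl }
  have hπ : ∀ v : D, π v = (B.submoduleOf A).mkQ ⟨q v, hDA v⟩ := fun v => rfl
  have hstab : ∀ y : V →ₗ[F] V, Commute y a → ∀ v ∈ D, y v ∈ D := by
    intro y hy v hv
    refine ⟨hK y hy v hv.1, ?_⟩
    obtain ⟨u, hu1, hu2, _⟩ := hres y hy
    change q (y v) ∈ A
    rw [hu1]
    exact hu2 _ hv.2
  refine ⟨{ D := D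
            stab := hstab
            E := E
            fld := inferInstance
            alg := inferInstance
            fdE := inferInstance
            hE := hE
            X := Fac A B
            grp := inferInstance
            modF := inferInstance
            modE := inferInstance
            tow := inferInstance
            fdX := inferInstance
            π := π
            surj := ?_
            res := ?_
            lift := ?_ }, fun v => Iff.rfl, fun v => ?_⟩
  · intro x
    obtain ⟨w, rfl⟩ := Submodule.mkQ_surjective _ x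
    have h1 : j w ∈ D := ⟨hKj w, by
      change q (j w) ∈ A
      rw [qj]
      exact w.2⟩
    refine ⟨⟨j w, h1⟩, ?_⟩
    rw [hπ]
    congr 1
    exact Subtype.ext (qj w)
  · intro y hy
    obtain ⟨u, hu1, hu2, hu3⟩ := hres y hy
    have h1 : B.submoduleOf A ≤ (B.submoduleOf A).comap (u.restrict hu2) := by
      intro w hw
      exact hu3 _ hw
    refine ⟨Submodule.mapQ _ _ (u.restrict hu2) h1, fun v => ?_⟩
    rw [hπ, hπ, Submodule.mkQ_apply, Submodule.mkQ_apply, Submodule.mapQ_apply]
    congr 1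
    exact Subtype.ext (hu1 v)
  · intro θ
    obtain ⟨U, hU1, hU2⟩ := hlift θ
    refine ⟨U, hU1, fun v => ?_⟩
    rw [hπ, hπ]
    exact hU2 v _ _
  · rw [hπ, Submodule.mkQ_apply, Submodule.Quotient.mk_eq_zero]
    exact Iff.rfl

/-- The zero section. -/
theorem sect_bot {F V : Type} [Field F] [AddCommGroup V] [Module F V] (a : V →ₗ[F] V) {m : ℕ}
    (hm : 0 < m) : ∃ S : Sect F V a m, S.D = ⊥ := by
  refine ⟨{ D := ⊥
            stab := fun y _ v hv => by
              rw [Submodule.mem_bot] at hv ⊢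
              rw [hv, map_zero]
            E := F
            fld := inferInstance
            alg := inferInstance
            fdE := inferInstance
            hE := by
              rw [Module.finrank_self]
              exact hm
            X := PUnit
            grp := inferInstance
            modF := inferInstance
            modE := inferInstance
            tow := inferInstance
            fdX := inferInstance
            π := 0
            surj := fun x => ⟨0, Subsingleton.elim _ _⟩
            res := fun _ _ => ⟨0, fun _ => Subsingleton.elim _ _⟩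
            lift := fun _ => ⟨1, Commute.one_left _, fun _ => Subsingleton.elim _ _⟩ }, rfl⟩

/-- A chain of sections: V = D_0, ker π_i = D_(i+1), ker π_(k-1) = 0. m = p^α m' with p the characteristic of F
and m' not 0 in F. b = a^(p^α), b^m' = c. exists_parts for b: parts (E_i, W_i), i < k' ≤ m'. b acts on W_i as a
scalar β (it commutes with all E-linear maps), β = γ^(p^α) (E_i is a finite field), a acts on W_i as γ + t,
t^(p^α) = 0. exists_nil_chain for (W_i, t). The section number (i, l):
D = {v : q_i' v = 0 for i' < i, q_i v ∈ D_l}, X = D_l / D_(l+1). -/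
theorem exists_chain {F V : Type} [Field F] [Finite F] [AddCommGroup V] [Module F V]
    [FiniteDimensional F V] (a : V →ₗ[F] V) {m : ℕ} (hm : 0 < m) {c : F} (hc : c ≠ 0)
    (ha : a ^ m = c • 1) :
    ∃ (k : ℕ) (P : ℕ → Sect F V a m), k ≤ m * (m * m) ∧ (P 0).D = ⊤ ∧ (∀ i, k ≤ i → (P i).D = ⊥) ∧
      (∀ i, (P (i + 1)).D ≤ (P i).D) ∧
      ∀ i, ∀ v : (P i).D, (P i).π v = 0 ↔ (v : V) ∈ (P (i + 1)).D := by
  classical
  obtain ⟨p, hp⟩ := CharP.exists F
  have hpp : Fact p.Prime := ⟨CharP.char_is_prime F p⟩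
  obtain ⟨α, m', hm', hmm⟩ := Nat.exists_eq_pow_mul_and_not_dvd hm.ne' p hpp.out.ne_one
  set Q := p ^ α with hQ
  have hQ0 : 0 < Q := pow_pos hpp.out.pos _
  have hm0 : 0 < m' := Nat.pos_of_ne_zero (by
    rintro rfl
    exact hm' (dvd_zero _))
  have hm'F : (m' : F) ≠ 0 := by
    rw [Ne, CharP.cast_eq_zero_iff F p]
    exact hm'
  have hb : (a ^ Q) ^ m' = c • 1 := by
    rw [← pow_mul, ← hmm, ha]
  obtain ⟨k, P, hk, hsum, horth⟩ := exists_parts_orth (a ^ Q) hm'F hc hb
  have hchain := fun i => part_chain a α (P i)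
  choose D hD0 hD1 hD2 hD3 hD4 using hchain
  have hmm' : m' ≤ m := by
    rw [hmm]
    exact Nat.le_mul_of_pos_left _ hQ0
  have hQm : Q ≤ m := by
    rw [hmm]
    exact Nat.le_mul_of_pos_right _ hm0
  -- the sections
  have hS : ∀ (i : Fin k) (l : ℕ), ∃ S : Sect F V a m,
      (∀ v, v ∈ S.D ↔ (∀ i', i' < i → (P i').q v = 0) ∧ (P i).q v ∈ D i l) ∧
      ∀ v : S.D, S.π v = 0 ↔ (P i).q v ∈ D i (l + 1) := by
    intro i l
    let K : Submodule F V :=
      { carrier := {v | ∀ i', i' < i → (P i').q v = 0}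
        add_mem' := fun {v w} hv hw i' hi' => by rw [map_add, hv i' hi', hw i' hi', add_zero]
        zero_mem' := fun i' _ => map_zero _
        smul_mem' := fun c v hv i' hi' => by rw [map_smul, hv i' hi', smul_zero] }
    refine sect_of a ((P i).hE.trans hmm') (P i).j (P i).q (P i).qj K ?_ ?_ (D i l) (D i (l + 1))
      ?_ (hD4 i l)
    · intro y hy v hv i' hi'
      obtain ⟨u, hu1, _⟩ := hD3 i' y hy
      rw [hu1, hv i' hi', map_zero]
    · intro w i' hi'
      exact horth i i' (ne_of_gt hi') w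
    · intro y hy
      obtain ⟨u, hu1, hu2⟩ := hD3 i y hy
      exact ⟨u, hu1, hu2 l, hu2 (l + 1)⟩
  choose S hS1 hS2 using hS
  obtain ⟨S0, hS0⟩ := sect_bot a hm
  have hQQ : 0 < Q * Q := Nat.mul_pos hQ0 hQ0
  have hidx : ∀ n, n < Q * Q * k → n / (Q * Q) < k := fun n hn => Nat.div_lt_of_lt_mul hn
  let R : ℕ → Sect F V a m := fun n =>
    if h : n < Q * Q * k then S ⟨n / (Q * Q), hidx n h⟩ (n % (Q * Q)) else S0
  have hR1 : ∀ n (h : n < Q * Q * k), R n = S ⟨n / (Q * Q), hidx n h⟩ (n % (Q * Q)) :=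
    fun n h => dif_pos h
  have hR2 : ∀ n, Q * Q * k ≤ n → R n = S0 := fun n h => dif_neg (by omega)
  have hzero : ∀ v, (∀ i, (P i).q v = 0) → v = 0 := by
    intro v hv
    rw [hsum v]
    refine Finset.sum_eq_zero fun i _ => ?_
    rw [hv i, map_zero]
  -- the next subspace
  have hnext : ∀ n (h : n < Q * Q * k) (v : V), v ∈ (R (n + 1)).D ↔
      (∀ i', i' < (⟨n / (Q * Q), hidx n h⟩ : Fin k) → (P i').q v = 0) ∧
        (P ⟨n / (Q * Q), hidx n h⟩).q v ∈ D ⟨n / (Q * Q), hidx n h⟩ (n % (Q * Q) + 1) := by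
    intro n h v
    have hmod : n % (Q * Q) < Q * Q := Nat.mod_lt _ hQQ
    have hdm := Nat.div_add_mod n (Q * Q)
    by_cases hj : n % (Q * Q) + 1 < Q * Q
    · have h1 : (n + 1) / (Q * Q) = n / (Q * Q) := by
        rw [show n + 1 = (n % (Q * Q) + 1) + Q * Q * (n / (Q * Q)) by omega,
          Nat.add_mul_div_left _ _ hQQ, Nat.div_eq_of_lt hj, zero_add]
      have h2 : (n + 1) % (Q * Q) = n % (Q * Q) + 1 := by
        rw [show n + 1 = (n % (Q * Q) + 1) + Q * Q * (n / (Q * Q)) by omega,
          Nat.add_mul_mod_self_left, Nat.mod_eq_of_lt hj]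
      have h3 : n + 1 < Q * Q * k := by
        have h4 : Q * Q * (n / (Q * Q)) + Q * Q ≤ Q * Q * k := by
          calc Q * Q * (n / (Q * Q)) + Q * Q = Q * Q * (n / (Q * Q) + 1) := by ring
            _ ≤ Q * Q * k := Nat.mul_le_mul_left _ (hidx n h)
        omega
      rw [hR1 _ h3, hS1]
      have h5 : (⟨(n + 1) / (Q * Q), hidx (n + 1) h3⟩ : Fin k) = ⟨n / (Q * Q), hidx n h⟩ :=
        Fin.ext h1
      rw [h5, h2]
    · have hj' : n % (Q * Q) + 1 = Q * Q := by omega
      have h0 : n + 1 = Q * Q * (n / (Q * Q) + 1) := by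
        rw [mul_add, mul_one]
        omega
      have h1 : (n + 1) / (Q * Q) = n / (Q * Q) + 1 := by
        rw [h0, Nat.mul_div_cancel_left _ hQQ]
      have h2 : (n + 1) % (Q * Q) = 0 := by
        rw [h0, Nat.mul_mod_right]
      rw [hj', hD1 _ _ (le_refl _), Submodule.mem_bot]
      by_cases h3 : n + 1 < Q * Q * k
      · rw [hR1 _ h3, hS1, h2, hD0]
        constructor
        · rintro ⟨h4, -⟩
          refine ⟨fun i' hi' => h4 i' ?_, h4 _ ?_⟩
          · have h6 : (i' : ℕ) < n / (Q * Q) := hi'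
            change (i' : ℕ) < (n + 1) / (Q * Q)
            rw [h1]
            exact Nat.lt_succ_of_lt h6
          · change n / (Q * Q) < (n + 1) / (Q * Q)
            rw [h1]
            exact Nat.lt_succ_self _
        · rintro ⟨h4, h5⟩
          refine ⟨fun i' hi' => ?_, Submodule.mem_top⟩
          have h9 : (i' : ℕ) < (n + 1) / (Q * Q) := hi'
          rw [h1] at h9
          by_cases h6 : (i' : ℕ) < n / (Q * Q)
          · exact h4 i' h6
          · have h7 : i' = ⟨n / (Q * Q), hidx n h⟩ := Fin.ext (by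
              change (i' : ℕ) = n / (Q * Q)
              omega)
            rw [h7]
            exact h5
      · rw [hR2 _ (by omega), hS0, Submodule.mem_bot]
        constructor
        · intro h4
          rw [h4]
          exact ⟨fun i' _ => map_zero _, map_zero _⟩
        · rintro ⟨h4, h5⟩
          have h8 : k ≤ n / (Q * Q) + 1 := by
            have h9 : Q * Q * k ≤ Q * Q * (n / (Q * Q) + 1) := by
              rw [← h0]
              omega
            exact Nat.le_of_mul_le_mul_left h9 hQQ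
          refine hzero v fun i' => ?_
          by_cases h6 : (i' : ℕ) < n / (Q * Q)
          · exact h4 i' h6
          · have h7 : i' = ⟨n / (Q * Q), hidx n h⟩ := Fin.ext (by
              change (i' : ℕ) = n / (Q * Q)
              have := i'.2
              omega)
            rw [h7]
            exact h5
  refine ⟨Q * Q * k, R, ?_, ?_, ?_, ?_, ?_⟩
  · calc Q * Q * k ≤ m * m * m := Nat.mul_le_mul (Nat.mul_le_mul hQm hQm) (hk.trans hmm')
      _ = m * (m * m) := by ring
  · rw [eq_top_iff]
    intro v _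
    by_cases hk0 : 0 < Q * Q * k
    · rw [hR1 0 hk0, hS1, Nat.zero_mod, hD0]
      refine ⟨fun i' hi' => ?_, Submodule.mem_top⟩
      rw [Fin.lt_def] at hi'
      have h1 : (i' : ℕ) < 0 / (Q * Q) := hi'
      rw [Nat.zero_div] at h1
      exact absurd h1 (Nat.not_lt_zero _)
    · have h1 : k = 0 := by
        by_contra hne
        exact hk0 (Nat.mul_pos hQQ (Nat.pos_of_ne_zero hne))
      subst h1
      rw [hzero v (fun i => i.elim0)]
      exact Submodule.zero_mem _
  · intro i hi
    rw [hR2 i hi, hS0]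
  · intro n v hv
    by_cases h : n < Q * Q * k
    · rw [hnext n h] at hv
      rw [hR1 n h, hS1]
      exact ⟨hv.1, hD2 _ _ hv.2⟩
    · rw [hR2 _ (by omega), hS0] at hv
      rw [hR2 _ (by omega), hS0]
      exact hv
  · intro n
    by_cases h : n < Q * Q * k
    · rw [hR1 n h]
      intro v
      rw [hS2, hnext n h]
      exact ⟨fun h1 => ⟨((hS1 _ _ _).1 v.2).1, h1⟩, fun h1 => h1.2⟩
    · rw [hR2 n (by omega), hR2 (n + 1) (by omega)]
      intro v
      have h1 : v = 0 := Subtype.ext ((Submodule.mem_bot F).1 (hS0.le v.2))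
      rw [h1, map_zero]
      exact ⟨fun _ => Submodule.zero_mem _, fun _ => rfl⟩

end Pool.Agent.Lib.MP_b9166b_al.Ks2
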