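import Pool.Agent.Lib.MP_b9166b_al.Ks2.WordsA

/-!
# Iterated commutators of elements of the centralizer of x

Der, exists_three_cycle and exists_der are in WordsA.
-/

set_option autoImplicit false
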