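import Pool.Agent.Lib.MP_b9166b_al.Ks2.Core

/-!
# Iterated commutators of elements of the centralizer of x: existence
-/

set_option autoImplicit false

namespace Pool.Agent.Lib.MP_b9166b_al.Ks2

open Ks
open scoped commutatorElement

variable {G : Type} [Group G]

/-- Iterated commutators of depth j of elements commuting with x. -/
def Der (x : G) : ℕ → Set G
  | 0 => {g | Commute g x}
  | (j + 1) => {y | ∃ g ∈ Der x j, ∃ h ∈ Der x j, y = ⁅g, h⁆}

variable {x : G}

private theorem wordsA_three : ∃ β γ : Equiv.Perm (Fin 5), β.IsThreeCycle ∧ γ.IsThreeCycle ∧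
    (⁅β, γ⁆ : Equiv.Perm (Fin 5)).IsThreeCycle := by
  refine ⟨Equiv.swap 0 1 * Equiv.swap 0 2, Equiv.swap 0 3 * Equiv.swap 0 4, ?_, ?_, ?_⟩
  · exact Equiv.Perm.isThreeCycle_swap_mul_swap_same (by decide) (by decide) (by decide)
  · exact Equiv.Perm.isThreeCycle_swap_mul_swap_same (by decide) (by decide) (by decide)
  · have h : ∃ a b c : Fin 5, a ≠ b ∧ a ≠ c ∧ b ≠ c ∧
        (⁅(Equiv.swap 0 1 * Equiv.swap 0 2 : Equiv.Perm (Fin 5)),
          (Equiv.swap 0 3 * Equiv.swap 0 4 : Equiv.Perm (Fin 5))⁆ :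
          Equiv.Perm (Fin 5)) = Equiv.swap a b * Equiv.swap a c := by
      decide +kernel
    obtain ⟨a, b, c, hab, hac, hbc, h⟩ := h
    rw [h]
    exact Equiv.Perm.isThreeCycle_swap_mul_swap_same hab hac hbc

/-- Every 3-cycle of five points is a commutator of two 3-cycles; decide. -/
theorem exists_three_cycle {α : Equiv.Perm (Fin 5)} (hα : α.IsThreeCycle) :
    ∃ β γ : Equiv.Perm (Fin 5), β.IsThreeCycle ∧ γ.IsThreeCycle ∧ α = ⁅β, γ⁆ := by
  obtain ⟨β, γ, hβ, hγ, h⟩ := wordsA_three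
  have h1 : IsConj (⁅β, γ⁆ : Equiv.Perm (Fin 5)) α := by
    rw [Equiv.Perm.isConj_iff_cycleType_eq, h.cycleType, hα.cycleType]
  obtain ⟨c, hc⟩ := isConj_iff.1 h1
  have key : ∀ {δ : Equiv.Perm (Fin 5)}, δ.IsThreeCycle →
      (MulAut.conj c δ).IsThreeCycle := by
    intro δ hδ
    have h2 : (c * δ * c⁻¹).cycleType = δ.cycleType := Equiv.Perm.cycleType_conj
    change (c * δ * c⁻¹).cycleType = {3}
    rw [h2]
    exact hδ
  refine ⟨MulAut.conj c β, MulAut.conj c γ, key hβ, key hγ, ?_⟩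
  rw [← map_commutatorElement, MulAut.conj_apply]
  exact hc.symm

private theorem wordsA_comm_eq {F V : Type} [Field F] [AddCommGroup V] [Module F V]
    {g h k l : (V →ₗ[F] V)ˣ} {e e' : F} (he : e ≠ 0) (he' : e' ≠ 0) (hg : g.val = e • h.val)
    (hk : k.val = e' • l.val) : ⁅g, k⁆ = ⁅h, l⁆ := by
  have h1 : ⁅g, k⁆ = ⁅h, k⁆ := Units.ext (comm_val_smul he hg)
  have h2 : ⁅k, h⁆ = ⁅l, h⁆ := Units.ext (comm_val_smul he' hk)
  rw [h1, ← inv_inj, commutatorElement_inv, commutatorElement_inv, h2]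

/-- Large covers give non trivial iterated commutators of every depth. exists_chain (a_x_pow),
exists_large_sect with N = 4, five independent vectors w_i of X, Θ = exists_perm_rep (Ks/LA.lean). By induction on
j: for every 3-cycle α there is g ∈ Der x j ∩ H such that a_g = e b, b commutes with a_x and b acts on X as
w_i ↦ w_(α i) (for j = 0: exists_lift_alt). -/
theorem exists_der {S : Finset G} (c : LCov x S) (hx : 0 < orderOf x)
    (hV : orderOf x * (orderOf x * orderOf x) * (orderOf x * 4) < Module.finrank c.F c.V) (j : ℕ) :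
    ∃ y ∈ Der x j, y ≠ 1 := by
  classical
  obtain ⟨e0, he0, hax⟩ := c.a_x_pow
  obtain ⟨k, P0, hk, hP0, hPk, -, hP⟩ := exists_chain (c.a x).val hx he0 hax
  obtain ⟨i0, hi0⟩ := exists_large_sect P0 hP0 hPk hP (N := 4)
    (lt_of_le_of_lt (Nat.mul_le_mul_right _ hk) hV)
  set P := P0 i0 with hPdef
  obtain ⟨v, hv⟩ := exists_linearIndependent_of_le_finrank (R := P.E) (M := P.X) (n := 5) hi0
  let w : Fin 5 ⊕ Empty → P.X := Sum.elim v Empty.elim
  have hw : LinearIndependent P.E w := by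
    rw [← linearIndependent_equiv (Equiv.sumEmpty (Fin 5) Empty).symm]
    exact hv
  obtain ⟨Θ, hΘ1, -⟩ := exists_perm_rep w hw
  have main : ∀ (j : ℕ) (α : Equiv.Perm (Fin 5)), α.IsThreeCycle → ∃ g ∈ Der x j, g ∈ c.H ∧
      ∃ b, Acts P b (Θ α) ∧ ∃ e : c.F, e ≠ 0 ∧ (c.a g).val = e • b.val := by
    intro j
    induction j with
    | zero =>
      intro α hα
      obtain ⟨g, hgH, hgx, b, hb, e, he, hge⟩ := exists_lift_alt c P (ι := Fin 5) (by simp) Θ
        (π := α) hα.mem_alternatingGroup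
      exact ⟨g, hgx, hgH, b, hb, e, he, hge⟩
    | succ j ih =>
      intro α hα
      obtain ⟨β, γ, hβ, hγ, rfl⟩ := exists_three_cycle hα
      obtain ⟨g, hg, hgH, b, hb, e, he, hge⟩ := ih β hβ
      obtain ⟨h, hh, hhH, b', hb', e', he', hhe⟩ := ih γ hγ
      obtain ⟨f, hf, h1⟩ := c.a_comm hgH hhH
      refine ⟨⁅g, h⁆, ⟨g, hg, h, hh, rfl⟩, ?_, ⁅b, b'⁆, ?_, f, hf, ?_⟩
      · rw [commutatorElement_def]
        exact c.H.mul_mem (c.H.mul_mem (c.H.mul_mem hgH hhH) (c.H.inv_mem hgH)) (c.H.inv_mem hhH)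
      · rw [map_commutatorElement]
        exact hb.comm hb'
      · rw [h1, wordsA_comm_eq he he' hge hhe]
  let α : Equiv.Perm (Fin 5) := Equiv.swap 0 1 * Equiv.swap 0 2
  have hα : α.IsThreeCycle :=
    Equiv.Perm.isThreeCycle_swap_mul_swap_same (by decide) (by decide) (by decide)
  obtain ⟨y, hy, hyH, b, hb, e, he, hye⟩ := main j α hα
  refine ⟨y, hy, ?_⟩
  rintro rfl
  obtain ⟨f, hf, h1⟩ := c.a_one
  rw [h1] at hye
  have h3 : b.val = (e⁻¹ * f) • (1 : c.V →ₗ[c.F] c.V) := by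
    rw [mul_smul, hye, smul_smul, inv_mul_cancel₀ he, one_smul]
  have h4 : (e⁻¹ * f) • v 0 = v (α 0) := by
    have h5 : (Θ α).val (v 0) = v (α 0) := hΘ1 α 0
    rw [← h5, hb.smul_eq h3]
  have hne : α 0 ≠ 0 := by decide
  apply hv.notMem_span_image (s := {(0 : Fin 5)}) (x := α 0) (by
    intro h
    exact hne (Set.mem_singleton_iff.1 h))
  rw [← h4, Set.image_singleton]
  have h9 : (e⁻¹ * f) • v 0 = (algebraMap c.F P.E (e⁻¹ * f)) • v 0 := by
    rw [algebraMap_smul]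
  rw [h9]
  exact Submodule.smul_mem _ _ (Submodule.mem_span_singleton_self _)

end Pool.Agent.Lib.MP_b9166b_al.Ks2
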