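import Pool.Agent.Lib.MP_b9166b_al.Ks2.Words
import Pool.Agent.Lib.MP_b9166b_al.Ks.Bounded

/-!
# Iterated commutators have bounded rank
-/

set_option autoImplicit false

namespace Pool.Agent.Lib.MP_b9166b_al.Ks2

open Ks
open scoped commutatorElement

theorem comm_eq_of_smul {F V : Type} [Field F] [AddCommGroup V] [Module F V]
    {g h k l : (V →ₗ[F] V)ˣ} {e e' : F} (he : e ≠ 0) (he' : e' ≠ 0) (hg : g.val = e • h.val)
    (hk : k.val = e' • l.val) : ⁅g, k⁆ = ⁅h, l⁆ := by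
  have h1 : ⁅g, k⁆ = ⁅h, k⁆ := Units.ext (comm_val_smul he hg)
  have h2 : ⁅k, h⁆ = ⁅l, h⁆ := Units.ext (comm_val_smul he' hk)
  rw [h1, ← inv_inj, commutatorElement_inv, commutatorElement_inv, h2]

variable {G : Type} [Group G] {x : G}

theorem mem_of_comm {M : Subgroup G} {a b : G} (ha : a ∈ M) (hb : b ∈ M) : ⁅a, b⁆ ∈ M := by
  rw [commutatorElement_def]
  exact M.mul_mem (M.mul_mem (M.mul_mem ha hb) (M.inv_mem ha)) (M.inv_mem hb)

theorem shift_der {K VK : Type} [Field K] [AddCommGroup VK] [Module K VK]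
    (ρ : Subgroup.centralizer ({x} : Set G) →* (VK →ₗ[K] VK)ˣ) (hρ : Function.Injective ρ)
    (hfin : ∀ h, FinMap (ρ h).val) (j : ℕ) :
    ∀ y ∈ Der x (j + 2), ∃ (B : ℕ) (S₀ : Finset G), ∀ (S : Finset G), S₀ ⊆ S → ∀ c : LCov x S,
      y ∈ c.H ∧ ∃ b : (c.V →ₗ[c.F] c.V)ˣ, (∃ e : c.F, e ≠ 0 ∧ (c.a y).val = e • b.val) ∧
        Commute b.val (c.a x).val ∧
        ∀ (P : ℕ → Sect c.F c.V (c.a x).val (orderOf x)),
          (∀ i, ∀ v : (P i).D, (P i).π v = 0 ↔ (v : c.V) ∈ (P (i + 1)).D) →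
          Shift (fun i => (P i).D) (2 ^ j) B (b.val - 1) := by
  classical
  induction j with
  | zero =>
    rintro y ⟨g, ⟨g1, hg1, g2, hg2, rfl⟩, h, ⟨h1, hh1, h2, hh2, rfl⟩, rfl⟩
    have cg1 : Commute g1 x := hg1
    have cg2 : Commute g2 x := hg2
    have ch1 : Commute h1 x := hh1
    have ch2 : Commute h2 x := hh2
    let G1 : Subgroup.centralizer ({x} : Set G) :=
      ⟨g1, Subgroup.mem_centralizer_singleton_iff.2 cg1.eq⟩
    let G2 : Subgroup.centralizer ({x} : Set G) :=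
      ⟨g2, Subgroup.mem_centralizer_singleton_iff.2 cg2.eq⟩
    let y1 : Subgroup.centralizer ({x} : Set G) := ⁅G1, G2⁆
    obtain ⟨r, hrp, hrd, hrK⟩ := exists_prime_ne_b K
      (3 * Module.finrank K (LinearMap.range (1 - (ρ y1).val)))
    have : Fact r.Prime := ⟨hrp⟩
    refine ⟨2 * (4 * r ^ 2) * orderOf x, {g1, g2, h1, h2}, ?_⟩
    intro S hS c
    have m1 : g1 ∈ c.H := c.hS _ (hS (by simp))
    have m2 : g2 ∈ c.H := c.hS _ (hS (by simp))
    have m3 : h1 ∈ c.H := c.hS _ (hS (by simp))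
    have m4 : h2 ∈ c.H := c.hS _ (hS (by simp))
    have k1 : Commute (c.a ⁅g1, g2⁆).val (c.a x).val :=
      congrArg Units.val (c.commute_comm m1 m2 cg1 cg2).eq
    have k2 : Commute (c.a ⁅h1, h2⁆).val (c.a x).val :=
      congrArg Units.val (c.commute_comm m3 m4 ch1 ch2).eq
    refine ⟨mem_of_comm (mem_of_comm m1 m2) (mem_of_comm m3 m4),
      ⁅c.a ⁅g1, g2⁆, c.a ⁅h1, h2⁆⁆, c.a_comm (mem_of_comm m1 m2) (mem_of_comm m3 m4), ?_, ?_⟩
    · have e1 : Commute (c.a ⁅g1, g2⁆) (c.a x) := c.commute_comm m1 m2 cg1 cg2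
      have e2 : Commute (c.a ⁅h1, h2⁆) (c.a x) := c.commute_comm m3 m4 ch1 ch2
      have e3 : Commute ⁅c.a ⁅g1, g2⁆, c.a ⁅h1, h2⁆⁆ (c.a x) := by
        rw [commutatorElement_def]
        exact ((e1.mul_left e2).mul_left e1.inv_left).mul_left e2.inv_left
      exact congrArg Units.val e3.eq
    · intro P hP
      rw [pow_zero]
      exact shift_one_of_small P hP (c.a ⁅g1, g2⁆) (c.a ⁅h1, h2⁆) k1 k2 (fun i u hu =>
        core c ρ hρ (y := y1) (mem_of_comm m1 m2) k1 hrK ⟨hfin y1, le_rfl⟩ hrd (P i) u hu)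
  | succ j ih =>
    rintro y ⟨g, hg, h, hh, rfl⟩
    obtain ⟨B1, S1, hB1⟩ := ih g hg
    obtain ⟨B2, S2, hB2⟩ := ih h hh
    refine ⟨2 * (B1 + B2), S1 ∪ S2, ?_⟩
    intro S hS c
    obtain ⟨mg, b, ⟨e, he, hae⟩, hbc, hbP⟩ := hB1 S (Finset.union_subset_left hS) c
    obtain ⟨mh, b', ⟨e', he', hae'⟩, hbc', hbP'⟩ := hB2 S (Finset.union_subset_right hS) c
    refine ⟨mem_of_comm mg mh, ⁅b, b'⁆, ?_, ?_, ?_⟩
    · obtain ⟨f, hf, h1⟩ := c.a_comm mg mh
      exact ⟨f, hf, by rw [h1, comm_eq_of_smul he he' hae hae']⟩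
    · rw [commutatorElement_def, Units.val_mul, Units.val_mul, Units.val_mul]
      exact ((hbc.mul_left hbc').mul_left (commute_inv_val hbc)).mul_left (commute_inv_val hbc')
    · intro P hP
      have h1 := Shift.comm (hbP P hP) (hbP' P hP)
        (fun i v hv => (P i).stab _ (commute_inv_val hbc) v hv)
        (fun i v hv => (P i).stab _ (commute_inv_val hbc') v hv)
      rw [pow_succ, mul_two]
      exact h1

/-- For 2^j ≥ m^3 Shift.finrank_le. -/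
theorem exists_bounded (hx : 0 < orderOf x) {K VK : Type} [Field K] [AddCommGroup VK] [Module K VK]
    (ρ : Subgroup.centralizer ({x} : Set G) →* (VK →ₗ[K] VK)ˣ) (hρ : Function.Injective ρ)
    (hfin : ∀ h, FinMap (ρ h).val) {j : ℕ} (hj : orderOf x * (orderOf x * orderOf x) ≤ 2 ^ j)
    {y : G} (hy : y ∈ Der x (j + 2)) :
    ∃ (B : ℕ) (S₀ : Finset G), ∀ (S : Finset G), S₀ ⊆ S → ∀ c : LCov x S,
      ∃ e : c.F, e ≠ 0 ∧
        Module.finrank c.F (LinearMap.range (e • (c.a y).val - 1)) ≤ B := by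
  obtain ⟨B, S₀, hB⟩ := shift_der ρ hρ hfin j y hy
  refine ⟨B, S₀, fun S hS c => ?_⟩
  obtain ⟨_, b, ⟨e, he, hae⟩, hbc, hbP⟩ := hB S hS c
  obtain ⟨e0, he0, hax⟩ := c.a_x_pow
  obtain ⟨k, P, hk, h0, hbot, _, hP⟩ := exists_chain (c.a x).val hx he0 hax
  refine ⟨e⁻¹, inv_ne_zero he, ?_⟩
  rw [hae, smul_smul, inv_mul_cancel₀ he, one_smul]
  exact (hbP P hP).finrank_le h0 hbot (hk.trans hj)

end Pool.Agent.Lib.MP_b9166b_al.Ks2
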